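import Mathlib.Data.Finset.Card
import Mathlib.Data.Fintype.Basic

/-! Monotone circuits: size, depth and width. -/

namespace Pool.Agent.MP_1a6d78_lc

/-- A monotone circuit with inputs indexed by `ι` and `size` gates. Gate `g` is the conjunction
(if `isAnd g`) or the disjunction of the inputs and gates listed in `arg g`; the fan-in is not
bounded. The output is an input or a gate. -/
structure MonCircuit (ι : Type) where
  size : ℕ
  isAnd : Fin size → Bool
  arg : Fin size → Finset (ι ⊕ Fin size)
  out : ι ⊕ Fin size

namespace MonCircuit

variable {ι : Type} (C : MonCircuit ι)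

/-- On every input `x` the gates take values `v` obeying the gate equations, and the output
vertex takes the value `f x`. -/
def Computes (f : (ι → Bool) → Bool) : Prop :=
  ∀ x : ι → Bool, ∃ v : Fin C.size → Bool,
    (∀ g, v g = true ↔
      if C.isAnd g then ∀ a ∈ C.arg g, Sum.elim x v a = true
      else ∃ a ∈ C.arg g, Sum.elim x v a = true) ∧
    f x = Sum.elim x v C.out

/-- The circuit is acyclic and every path contains at most `d` gates. -/
def DepthLE (d : ℕ) : Prop :=
  ∃ lev : Fin C.size → ℕ, (∀ g, 1 ≤ lev g ∧ lev g ≤ d) ∧
    ∀ g g', Sum.inr g' ∈ C.arg g → lev g' < lev g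

/-- The gates are arranged in levels of at most `W` gates each, and every wire between two gates
goes from a level to the next one (inputs may feed gates of any level). -/
def WidthLE (W : ℕ) : Prop :=
  ∃ lev : Fin C.size → ℕ, (∀ g g', Sum.inr g' ∈ C.arg g → lev g = lev g' + 1) ∧
    ∀ i, (Finset.univ.filter fun g => lev g = i).card ≤ W

end MonCircuit

end Pool.Agent.MP_1a6d78_lc
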