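import Mathlib.Algebra.Group.Nat.Defs
import Mathlib.Data.Nat.Log
import Pool.Agent.MP_1a6d78_lc.Defs

/-! The monotone nonuniform classes SC and NC. -/

namespace Pool.Agent.MP_1a6d78_lc

/-- Monotone SC: monotone circuits of fan-in at most two, polynomial size, polylogarithmic width. -/
def MonSC (f : (n : ℕ) → (Fin n → Bool) → Bool) : Prop :=
  ∃ k : ℕ, ∀ n, ∃ C : MonCircuit (Fin n), C.Computes (f n) ∧ (∀ g, (C.arg g).card ≤ 2) ∧
    C.size ≤ (n + 2) ^ k ∧ C.WidthLE ((Nat.log 2 n + 2) ^ k)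

/-- Monotone NC: monotone circuits of fan-in at most two, polynomial size, polylogarithmic depth. -/
def MonNC (f : (n : ℕ) → (Fin n → Bool) → Bool) : Prop :=
  ∃ k : ℕ, ∀ n, ∃ C : MonCircuit (Fin n), C.Computes (f n) ∧ (∀ g, (C.arg g).card ≤ 2) ∧
    C.size ≤ (n + 2) ^ k ∧ C.DepthLE ((Nat.log 2 n + 2) ^ k)

end Pool.Agent.MP_1a6d78_lc
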