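import Mathlib.Algebra.BigOperators.Field
import Mathlib.Algebra.Order.Ring.Star
import Mathlib.Algebra.Order.Chebyshev
import Mathlib.Algebra.Order.Star.Real
import Mathlib.Algebra.Ring.IsFormallyReal
import Mathlib.Analysis.Complex.ExponentialBounds
import Mathlib.Tactic.Algebra.Basic

-- ======== part 0: formerly Pool.Agent.MP_1a6d78_lc.Spread
section MrgPart0

/-! An elementary spread lemma: a spread family of small patterns is matched by all but an
exponentially small fraction of the words. Second moment, random colouring, independence. -/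

open Finset

namespace Pool.Agent.MP_1a6d78_lc

open Classical

section
variable {Ω : Type*} [Fintype Ω] [DecidableEq Ω]

theorem card_match {B : Type*} [Fintype B] (D : Finset Ω) (b : Ω → B) :
    (#{u : Ω → B | ∀ ω ∈ D, u ω = b ω} : ℝ) * (Fintype.card B : ℝ) ^ D.card =
      (Fintype.card (Ω → B) : ℝ) := by
  have h1 : ({u : Ω → B | ∀ ω ∈ D, u ω = b ω} : Finset (Ω → B)) =
      Fintype.piFinset (fun ω => if ω ∈ D then {b ω} else univ) := by
    ext u
    simp only [mem_filter, mem_univ, true_and, Fintype.mem_piFinset]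
    constructor
    · intro h ω
      split_ifs with hω
      · simp [h ω hω]
      · simp
    · intro h ω hω
      simpa [hω] using h ω
  rw [h1, Fintype.card_piFinset, Fintype.card_fun]
  have h2 : ∀ ω, #(if ω ∈ D then ({b ω} : Finset B) else univ) =
      if ω ∈ D then 1 else Fintype.card B := by
    intro ω
    split_ifs <;> simp
  simp only [h2]
  rw [prod_ite]
  simp only [prod_const_one, one_mul, prod_const]
  have h3 : #{ω : Ω | ω ∉ D} + D.card = Fintype.card Ω := by
    have : ({ω : Ω | ω ∉ D} : Finset Ω) = Dᶜ := by ext; simp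
    rw [this, card_compl]
    have := card_le_univ D
    omega
  push_cast
  rw [← pow_add, h3]

theorem second_moment {B P : Type*} [Fintype B] [Nonempty B] (Pt : Finset P) (hP : Pt.Nonempty)
    (D : P → Finset Ω) (b : P → Ω → B) (k : ℕ) (r : ℝ) (hr : 0 < r)
    (hk : ∀ p ∈ Pt, (D p).card ≤ k) (hq : (1 + (Fintype.card B : ℝ) / r) ^ k ≤ 2)
    (hs : ∀ T : Finset Ω, (#{p ∈ Pt | T ⊆ D p} : ℝ) * r ^ T.card ≤ #Pt) :
    (Fintype.card (Ω → B) : ℝ) ≤ 2 * #{u : Ω → B | ∃ p ∈ Pt, ∀ ω ∈ D p, u ω = b p ω} := by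
  set q : ℝ := (Fintype.card B : ℝ) with hqdef
  set N : ℝ := (Fintype.card (Ω → B) : ℝ) with hN
  have hq0 : 0 < q := by rw [hqdef]; exact_mod_cast Fintype.card_pos
  have hq1 : 1 ≤ q := by rw [hqdef]; exact_mod_cast Fintype.card_pos
  have hN0 : 0 < N := by rw [hN]; exact_mod_cast Fintype.card_pos
  have hP0 : (0 : ℝ) < #Pt := by exact_mod_cast hP.card_pos
  let ind : P → (Ω → B) → ℝ := fun p u => if ∀ ω ∈ D p, u ω = b p ω then q ^ (D p).card else 0
  let Z : (Ω → B) → ℝ := fun u => ∑ p ∈ Pt, ind p u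
  have hind : ∀ p, ∑ u, ind p u = N := by
    intro p
    simp only [ind]
    rw [← sum_filter, sum_const, nsmul_eq_mul]
    exact card_match (D p) (b p)
  have h1 : ∑ u, Z u = #Pt * N := by
    simp only [Z]
    rw [sum_comm]
    simp [hind]
  have hpair : ∀ p p', ∑ u, ind p u * ind p' u ≤ q ^ (D p ∩ D p').card * N := by
    intro p p'
    have e1 : ∀ u, ind p u * ind p' u ≤
        if ∀ ω ∈ D p ∪ D p', u ω = (if ω ∈ D p then b p ω else b p' ω) then
          q ^ (D p).card * q ^ (D p').card else 0 := by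
      intro u
      simp only [ind]
      by_cases h1 : ∀ ω ∈ D p, u ω = b p ω
      · by_cases h2 : ∀ ω ∈ D p', u ω = b p' ω
        · rw [if_pos h1, if_pos h2, if_pos]
          intro ω hω
          split_ifs with h
          · exact h1 ω h
          · exact h2 ω ((mem_union.1 hω).resolve_left h)
        · rw [if_neg h2, mul_zero]
          split_ifs <;> positivity
      · rw [if_neg h1, zero_mul]
        split_ifs <;> positivity
    refine (sum_le_sum fun u _ => e1 u).trans ?_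
    rw [← sum_filter, sum_const, nsmul_eq_mul, ← pow_add, ← card_union_add_card_inter, pow_add,
      ← mul_assoc, card_match (D p ∪ D p') (fun ω => if ω ∈ D p then b p ω else b p' ω), mul_comm]
  have hrow : ∀ p ∈ Pt, ∑ p' ∈ Pt, q ^ (D p ∩ D p').card ≤ 2 * #Pt := by
    intro p hp
    have e1 : ∀ p', q ^ (D p ∩ D p').card ≤
        ∑ T ∈ (D p).powerset, if T ⊆ D p' then q ^ T.card else 0 := by
      intro p'
      have hm : D p ∩ D p' ∈ (D p).powerset := mem_powerset.2 inter_subset_left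
      refine le_trans ?_ (single_le_sum (f := fun T => if T ⊆ D p' then q ^ T.card else 0)
        (fun T _ => by split_ifs <;> positivity) hm)
      simp
    refine (sum_le_sum fun p' _ => e1 p').trans ?_
    rw [sum_comm]
    have e2 : ∀ T ∈ (D p).powerset, (∑ p' ∈ Pt, if T ⊆ D p' then q ^ T.card else 0) ≤
        (q / r) ^ T.card * #Pt := by
      intro T _
      rw [← sum_filter, sum_const, nsmul_eq_mul, div_pow, div_mul_eq_mul_div,
        le_div_iff₀ (by positivity)]
      have := mul_le_mul_of_nonneg_left (hs T) (show 0 ≤ q ^ T.card by positivity)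
      linarith
    refine (sum_le_sum e2).trans ?_
    rw [← sum_mul]
    apply mul_le_mul_of_nonneg_right _ hP0.le
    have e3 : ∑ T ∈ (D p).powerset, (q / r) ^ T.card = (1 + q / r) ^ (D p).card := by
      have := sum_pow_mul_eq_add_pow (q / r) 1 (D p)
      simp only [one_pow, mul_one] at this
      rw [this, add_comm]
    rw [e3]
    refine le_trans (pow_le_pow_right₀ ?_ (hk p hp)) hq
    have : 0 ≤ q / r := by positivity
    linarith
  have h2 : ∑ u, Z u ^ 2 ≤ 2 * #Pt ^ 2 * N := by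
    have e : ∀ u, Z u ^ 2 = ∑ p ∈ Pt, ∑ p' ∈ Pt, ind p u * ind p' u := by
      intro u
      simp only [Z]
      rw [sq, sum_mul_sum]
    simp only [e]
    rw [sum_comm]
    calc ∑ p ∈ Pt, ∑ u, ∑ p' ∈ Pt, ind p u * ind p' u
        = ∑ p ∈ Pt, ∑ p' ∈ Pt, ∑ u, ind p u * ind p' u := by
          refine sum_congr rfl fun p _ => sum_comm
      _ ≤ ∑ p ∈ Pt, ∑ p' ∈ Pt, q ^ (D p ∩ D p').card * N :=
          sum_le_sum fun p _ => sum_le_sum fun p' _ => hpair p p'
      _ ≤ ∑ p ∈ Pt, 2 * #Pt * N := by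
          refine sum_le_sum fun p hp => ?_
          rw [← sum_mul]
          exact mul_le_mul_of_nonneg_right (hrow p hp) hN0.le
      _ = 2 * #Pt ^ 2 * N := by rw [sum_const, nsmul_eq_mul]; ring
  set S : Finset (Ω → B) := {u : Ω → B | ∃ p ∈ Pt, ∀ ω ∈ D p, u ω = b p ω} with hS
  have h3 : ∑ u ∈ S, Z u = ∑ u, Z u := by
    apply sum_subset (subset_univ _)
    intro u _ hu
    simp only [hS, mem_filter, mem_univ, true_and, not_exists, not_and] at hu
    apply sum_eq_zero
    intro p hp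
    simp only [ind]
    rw [if_neg (hu p hp)]
  have h4 := sq_sum_le_card_mul_sum_sq (s := S) (f := Z)
  have h5 : ∑ u ∈ S, Z u ^ 2 ≤ ∑ u, Z u ^ 2 :=
    sum_le_sum_of_subset_of_nonneg (subset_univ _) fun _ _ _ => sq_nonneg _
  rw [h3, h1] at h4
  have h6 : (#Pt * N) ^ 2 ≤ #S * (2 * #Pt ^ 2 * N) :=
    h4.trans (mul_le_mul_of_nonneg_left (h5.trans h2) (by positivity))
  have h7 : (#Pt ^ 2 * N) * N ≤ (#Pt ^ 2 * N) * (2 * #S) := by nlinarith
  exact le_of_mul_le_mul_left h7 (by positivity)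

theorem card_indep {A : Type*} [Fintype A] (U : Ω → Prop) (F G : (Ω → A) → Prop)
    (hF : ∀ y y', (∀ ω, U ω → y ω = y' ω) → F y → F y')
    (hG : ∀ y y', (∀ ω, ¬ U ω → y ω = y' ω) → G y → G y') :
    #{y | F y ∧ G y} * Fintype.card (Ω → A) = #{y | F y} * #{y | G y} := by
  rw [← card_univ, ← card_product, ← card_product]
  let sw : (Ω → A) × (Ω → A) → (Ω → A) × (Ω → A) := fun z =>
    (fun ω => if U ω then z.1 ω else z.2 ω, fun ω => if U ω then z.2 ω else z.1 ω)
  have hsw : ∀ z, sw (sw z) = z := by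
    intro z
    ext ω <;> simp only [sw] <;> split_ifs <;> rfl
  apply card_nbij' sw sw
  · intro z hz
    simp only [coe_product, coe_filter, mem_univ, true_and, Set.mem_prod, Set.mem_ofPred_eq,
      coe_univ, Set.mem_univ, and_true] at hz ⊢
    exact ⟨hF _ _ (fun ω h => by simp [sw, h]) hz.1, hG _ _ (fun ω h => by simp [sw, h]) hz.2⟩
  · intro z hz
    simp only [coe_product, coe_filter, mem_univ, true_and, Set.mem_prod, Set.mem_ofPred_eq,
      coe_univ, Set.mem_univ, and_true] at hz ⊢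
    exact ⟨hF _ _ (fun ω h => by simp [sw, h]) hz.1, hG _ _ (fun ω h => by simp [sw, h]) hz.2⟩
  · intro z _
    exact hsw z
  · intro z _
    exact hsw z

theorem card_indep_prod {A ι : Type*} [Fintype A] [Nonempty A] (π : Ω → ι)
    (F : ι → (Ω → A) → Prop)
    (hF : ∀ g y y', (∀ ω, π ω = g → y ω = y' ω) → F g y → F g y') (G : Finset ι) :
    (#{y | ∀ g ∈ G, F g y} : ℝ) / Fintype.card (Ω → A) =
      ∏ g ∈ G, (#{y | F g y} : ℝ) / Fintype.card (Ω → A) := by
  have hN0 : (0 : ℝ) < Fintype.card (Ω → A) := by exact_mod_cast Fintype.card_pos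
  induction G using Finset.induction_on with
  | empty => simp
  | insert g G hg ih =>
    rw [prod_insert hg, ← ih]
    have h := card_indep (fun ω => π ω = g) (F g) (fun y => ∀ g' ∈ G, F g' y) (hF g)
      (fun y y' h hy g' hg' => hF g' y y'
        (fun ω hω => h ω (fun h' => hg (by rw [← h', hω]; exact hg'))) (hy g' hg'))
    have h' : (#{y | F g y ∧ ∀ g' ∈ G, F g' y} : ℝ) * Fintype.card (Ω → A) =
        #{y | F g y} * #{y | ∀ g' ∈ G, F g' y} := by
      norm_cast
      convert h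
    simp only [forall_mem_insert]
    field_simp
    linarith

/-- The spread lemma. -/
theorem spread {A P : Type*} [Fintype A] [Nonempty A] (Pt : Finset P) (hP : Pt.Nonempty)
    (D : P → Finset Ω) (b : P → Ω → A) (k l : ℕ) (hl : 0 < l) (r : ℝ) (hr : 0 < r)
    (hk : ∀ p ∈ Pt, (D p).card ≤ k) (hq : 2 * (Fintype.card A : ℝ) * l * k ≤ r)
    (hs : ∀ T : Finset Ω, (#{p ∈ Pt | T ⊆ D p} : ℝ) * r ^ T.card ≤ #Pt) :
    (#{y : Ω → A | ∀ p ∈ Pt, ∃ ω ∈ D p, y ω ≠ b p ω} : ℝ) ≤
      Real.exp (-(l / 2 : ℝ)) * Fintype.card (Ω → A) := by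
  have : Nonempty (Fin l) := ⟨⟨0, hl⟩⟩
  have hN0 : (0 : ℝ) < Fintype.card (Ω → A) := by exact_mod_cast Fintype.card_pos
  set N : ℝ := (Fintype.card (Ω → A) : ℝ) with hN
  have hq' : (1 + (Fintype.card (Fin l × A) : ℝ) / r) ^ k ≤ 2 := by
    have h1 : (1 + (Fintype.card (Fin l × A) : ℝ) / r) ^ k ≤
        Real.exp ((Fintype.card (Fin l × A) : ℝ) / r) ^ k := by
      apply pow_le_pow_left₀ (by positivity)
      linarith [Real.add_one_le_exp ((Fintype.card (Fin l × A) : ℝ) / r)]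
    refine h1.trans ?_
    rw [← Real.exp_nat_mul]
    have h2 : (k : ℝ) * ((Fintype.card (Fin l × A) : ℝ) / r) ≤ 1 / 2 := by
      rw [Fintype.card_prod, Fintype.card_fin, ← mul_div_assoc, div_le_iff₀ hr]
      push_cast
      linarith
    refine (Real.exp_le_exp.2 h2).trans ?_
    have h3 : Real.exp (1 / 2) ^ 2 = Real.exp 1 := by rw [← Real.exp_nat_mul]; norm_num
    have h4 := Real.exp_one_lt_d9
    nlinarith [Real.exp_pos (1 / 2)]
  -- the events
  let M : (Ω → Fin l) → Fin l → (Ω → A) → Prop := fun π g y =>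
    ∃ p ∈ Pt, ∀ ω ∈ D p, π ω = g ∧ y ω = b p ω
  have hcol : ∀ g : Fin l, (Fintype.card (Ω → Fin l) : ℝ) * N ≤
      2 * ∑ π : Ω → Fin l, (#{y | M π g y} : ℝ) := by
    intro g
    have h := second_moment Pt hP D (fun p ω => (g, b p ω)) k r hr hk hq' hs
    have e1 : (Fintype.card (Ω → Fin l × A) : ℝ) = Fintype.card (Ω → Fin l) * N := by
      rw [hN, ← Nat.cast_mul, ← Fintype.card_prod]
      exact congrArg _ (Fintype.card_congr (Equiv.arrowProdEquivProdArrow _ _ _))
    have e2 : #{u : Ω → Fin l × A | ∃ p ∈ Pt, ∀ ω ∈ D p, u ω = (g, b p ω)} =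
        ∑ π : Ω → Fin l, #{y | M π g y} := by
      rw [card_eq_sum_card_fiberwise (f := fun u ω => (u ω).1) (t := univ) (by simp)]
      refine sum_congr rfl fun π _ => ?_
      apply card_nbij' (fun u ω => (u ω).2) (fun y ω => (π ω, y ω))
      · intro u hu
        simp only [coe_filter, mem_filter, mem_univ, true_and, Set.mem_ofPred_eq] at hu ⊢
        obtain ⟨⟨p, hp, h⟩, rfl⟩ := hu
        exact ⟨p, hp, fun ω hω => by simp [h ω hω]⟩
      · intro y hy
        simp only [coe_filter, mem_filter, mem_univ, true_and, Set.mem_ofPred_eq] at hy ⊢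
        obtain ⟨p, hp, h⟩ := hy
        exact ⟨⟨p, hp, fun ω hω => by simp [h ω hω]⟩, trivial⟩
      · intro u hu
        simp only [coe_filter, mem_filter, mem_univ, true_and, Set.mem_ofPred_eq] at hu
        obtain ⟨_, rfl⟩ := hu
        rfl
      · intro y _
        rfl
    rw [← e1, ← Nat.cast_sum, ← e2]
    convert h
    rfl
  obtain ⟨π, hπ⟩ : ∃ π : Ω → Fin l, (l / 2 : ℝ) * N ≤ ∑ g, (#{y | M π g y} : ℝ) := by
    by_contra hcon
    push Not at hcon
    have h1 : ∑ π : Ω → Fin l, ∑ g, (#{y | M π g y} : ℝ) < ∑ π : Ω → Fin l, (l / 2 : ℝ) * N :=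
      sum_lt_sum_of_nonempty univ_nonempty fun π _ => hcon π
    have h2 := sum_le_sum (s := univ) fun g _ => hcol g
    rw [← mul_sum univ _ 2, sum_comm] at h2
    simp only [sum_const, card_univ, Fintype.card_fin, nsmul_eq_mul] at h1 h2
    nlinarith
  have hprod := card_indep_prod π (fun g y => ¬ M π g y)
    (fun g y y' h hy hy' => hy (by
      obtain ⟨p, hp, hm⟩ := hy'
      exact ⟨p, hp, fun ω hω => ⟨(hm ω hω).1, by rw [h ω (hm ω hω).1, (hm ω hω).2]⟩⟩)) univ
  have hsub : (#{y : Ω → A | ∀ p ∈ Pt, ∃ ω ∈ D p, y ω ≠ b p ω} : ℝ) ≤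
      #{y | ∀ g ∈ (univ : Finset (Fin l)), ¬ M π g y} := by
    norm_cast
    apply card_le_card
    intro y hy
    simp only [mem_filter, mem_univ, true_and, forall_const] at hy ⊢
    rintro g ⟨p, hp, hm⟩
    obtain ⟨ω, hω, hne⟩ := hy p hp
    exact hne (hm ω hω).2
  refine hsub.trans ?_
  rw [← div_le_iff₀ hN0]
  have hprod' : (#{y | ∀ g ∈ (univ : Finset (Fin l)), ¬ M π g y} : ℝ) / N =
      ∏ g, (#{y | ¬ M π g y} : ℝ) / N := by convert hprod
  rw [hprod']
  have hfac : ∀ g : Fin l, (#{y | ¬ M π g y} : ℝ) / N ≤ Real.exp (-((#{y | M π g y} : ℝ) / N)) := by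
    intro g
    have e : (#{y | M π g y} : ℝ) + #{y | ¬ M π g y} = N := by
      rw [hN]
      exact_mod_cast card_filter_add_card_filter_not (s := univ) (M π g)
    have e2 : (#{y | ¬ M π g y} : ℝ) / N = -((#{y | M π g y} : ℝ) / N) + 1 := by
      field_simp
      linarith
    rw [e2]
    exact Real.add_one_le_exp _
  refine (prod_le_prod (fun g _ => by positivity) fun g _ => hfac g).trans ?_
  rw [← Real.exp_sum, Real.exp_le_exp, sum_neg_distrib, ← sum_div, neg_le_neg_iff,
    le_div_iff₀ hN0]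
  exact hπ

end

end Pool.Agent.MP_1a6d78_lc

end MrgPart0

-- ======== part 1: formerly Pool.Agent.MP_1a6d78_lc.Lift
section MrgPart1

/-! A depth-preserving lifting theorem for dags of rectangles, with a small index gadget. -/

open Finset

namespace Pool.Agent.MP_1a6d78_lc

open Classical

variable {V M A : Type*} [Fintype V] [Fintype M] [Fintype A] [DecidableEq V] [DecidableEq M]

/-- The set `P` is `r`-spread on the coordinates outside `I`. -/
def IsSpread (r : ℝ) (P : Finset (V → M)) (I : Finset V) : Prop :=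
  ∀ T : Finset (V × M), (∀ ω ∈ T, ω.1 ∉ I) →
    (#{x ∈ P | ∀ ω ∈ T, x ω.1 = ω.2} : ℝ) * r ^ T.card ≤ #P

theorem card_graph_le (P : Finset (V → M)) (T : Finset (V × M)) :
    (#{x ∈ P | ∀ ω ∈ T, x ω.1 = ω.2} : ℝ) * (Fintype.card M : ℝ) ^ T.card ≤
      Fintype.card (V → M) := by
  by_cases hne : ({x ∈ P | ∀ ω ∈ T, x ω.1 = ω.2} : Finset (V → M)).Nonempty
  · obtain ⟨x0, hx0⟩ := hne
    have hx0' := (mem_filter.1 hx0).2
    have hinj : Set.InjOn Prod.fst (T : Set (V × M)) := by
      intro a ha b hb hab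
      apply Prod.ext hab
      rw [← hx0' a ha, ← hx0' b hb, hab]
    have h := card_match (T.image Prod.fst) x0
    rw [card_image_of_injOn hinj] at h
    refine le_trans ?_ (le_of_eq (by convert h))
    apply mul_le_mul_of_nonneg_right _ (by positivity)
    norm_cast
    apply card_le_card
    intro x hx
    simp only [mem_filter, mem_univ, true_and, mem_image] at hx ⊢
    rintro _ ⟨ω, hω, rfl⟩
    rw [hx.2 ω hω, hx0' ω hω]
  · rw [not_nonempty_iff_eq_empty] at hne
    rw [hne]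
    simp

theorem x_structure (w : ℕ) (r : ℝ) (hr : 0 < r) (hm : 2 * r ≤ Fintype.card M)
    (X0 : Finset (V → M)) :
    ∃ E : Finset (V → M), (#E : ℝ) * 2 ^ (w + 1) ≤ Fintype.card (V → M) ∧
      ∀ x ∈ X0, x ∉ E → ∃ I : Finset V, I.card ≤ w ∧ ∃ P ⊆ X0, P.Nonempty ∧
        (∀ x' ∈ P, ∀ v ∈ I, x' v = x v) ∧ IsSpread r P I := by
  set E : Finset (V → M) := {x ∈ X0 | ¬ ∃ I : Finset V, I.card ≤ w ∧ ∃ P ⊆ X0, P.Nonempty ∧
        (∀ x' ∈ P, ∀ v ∈ I, x' v = x v) ∧ IsSpread r P I} with hE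
  refine ⟨E, ?_, fun x hx hxE => ?_⟩
  swap
  · by_contra h
    exact hxE (mem_filter.2 ⟨hx, h⟩)
  rcases E.eq_empty_or_nonempty with h0 | hne
  · rw [h0]
    simp
  have hEpos : (0 : ℝ) < #E := by exact_mod_cast hne.card_pos
  obtain ⟨T, hT, hmax⟩ := exists_max_image
    ({T : Finset (V × M) | (#E : ℝ) ≤ #{x ∈ E | ∀ ω ∈ T, x ω.1 = ω.2} * r ^ T.card} : Finset _)
    card ⟨∅, by simp⟩
  have hT' := (mem_filter.1 hT).2
  set P : Finset (V → M) := {x ∈ E | ∀ ω ∈ T, x ω.1 = ω.2} with hP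
  have hPne : P.Nonempty := by
    rw [← card_pos]
    by_contra h
    have : #P = 0 := by omega
    rw [this, Nat.cast_zero, zero_mul] at hT'
    linarith
  have hsp : IsSpread r P (T.image Prod.fst) := by
    intro T' hT''
    rcases T'.eq_empty_or_nonempty with rfl | hne'
    · simp
    by_contra hcon
    push Not at hcon
    have hdisj : Disjoint T T' := by
      rw [disjoint_left]
      intro ω h1 h2
      exact hT'' ω h2 (mem_image_of_mem _ h1)
    have heq : ({x ∈ E | ∀ ω ∈ T ∪ T', x ω.1 = ω.2} : Finset _) =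
        {x ∈ P | ∀ ω ∈ T', x ω.1 = ω.2} := by
      ext x
      simp only [hP, mem_filter, mem_union]
      constructor
      · rintro ⟨h1, h2⟩
        exact ⟨⟨h1, fun ω h => h2 ω (Or.inl h)⟩, fun ω h => h2 ω (Or.inr h)⟩
      · rintro ⟨⟨h1, h2⟩, h3⟩
        exact ⟨h1, fun ω h => h.elim (h2 ω) (h3 ω)⟩
    have := hmax (T ∪ T') (by
      refine mem_filter.2 ⟨mem_univ _, ?_⟩
      rw [heq, card_union_of_disjoint hdisj, add_comm, pow_add, ← mul_assoc]
      exact hT'.trans (mul_le_mul_of_nonneg_right hcon.le (by positivity)))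
    rw [card_union_of_disjoint hdisj] at this
    have := hne'.card_pos
    omega
  have hw : w + 1 ≤ T.card := by
    by_contra h
    obtain ⟨x, hx⟩ := hPne
    have hxE := (mem_filter.1 hx).1
    apply (mem_filter.1 hxE).2
    refine ⟨T.image Prod.fst, card_image_le.trans (by omega), P, ?_, ⟨x, hx⟩, ?_, hsp⟩
    · exact (filter_subset _ _).trans (filter_subset _ _)
    · intro x' hx' v hv
      obtain ⟨ω, hω, rfl⟩ := mem_image.1 hv
      rw [(mem_filter.1 hx').2 ω hω, (mem_filter.1 hx).2 ω hω]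
  have h1 := card_graph_le E T
  calc (#E : ℝ) * 2 ^ (w + 1) ≤ (#P * r ^ T.card) * 2 ^ T.card :=
        mul_le_mul hT' (pow_le_pow_right₀ (by norm_num) hw) (by positivity) (by positivity)
    _ = #P * (2 * r) ^ T.card := by rw [mul_pow]; ring
    _ ≤ #P * (Fintype.card M : ℝ) ^ T.card :=
        mul_le_mul_of_nonneg_left (pow_le_pow_left₀ (by positivity) hm _) (by positivity)
    _ ≤ _ := h1

theorem card_small_sets {Ω : Type*} [Fintype Ω] (w : ℕ) :
    #{U : Finset Ω | U.card ≤ w} ≤ (Fintype.card Ω + 1) ^ w := by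
  have h1 : ({U : Finset Ω | U.card ≤ w} : Finset _) =
      (range (w + 1)).biUnion fun j => powersetCard j univ := by
    ext U
    simp [Nat.lt_succ_iff]
  rw [h1]
  refine card_biUnion_le.trans ?_
  rw [add_pow]
  refine sum_le_sum fun j hj => ?_
  rw [card_powersetCard, card_univ, one_pow, mul_one]
  have h2 : 0 < w.choose j := Nat.choose_pos (Nat.lt_succ_iff.1 (mem_range.1 hj))
  calc (Fintype.card Ω).choose j ≤ (Fintype.card Ω) ^ j := Nat.choose_le_pow _ _
    _ ≤ _ := Nat.le_mul_of_pos_right _ h2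

theorem y_structure {Ω : Type*} [Fintype Ω] [DecidableEq Ω] (w : ℕ) (η : ℝ) (hη : 0 ≤ η)
    (Y0 : Finset (Ω → A)) :
    ∃ E : Finset (Ω → A), (#E : ℝ) ≤ ((Fintype.card (Ω × A) + 1) ^ w : ℕ) * η ∧
      ∀ y ∈ Y0, y ∉ E → ∀ U : Finset Ω, U.card ≤ w →
        η < #{y' ∈ Y0 | ∀ ω ∈ U, y' ω = y ω} := by
  let S : Finset (Ω × A) → Finset (Ω → A) := fun U => {y' ∈ Y0 | ∀ ω ∈ U, y' ω.1 = ω.2}
  refine ⟨({U : Finset (Ω × A) | U.card ≤ w ∧ (#(S U) : ℝ) ≤ η} : Finset _).biUnion S, ?_, ?_⟩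
  · calc (#(({U : Finset (Ω × A) | U.card ≤ w ∧ (#(S U) : ℝ) ≤ η} : Finset _).biUnion S) : ℝ)
        ≤ ∑ U ∈ ({U : Finset (Ω × A) | U.card ≤ w ∧ (#(S U) : ℝ) ≤ η} : Finset _), (#(S U) : ℝ) := by
          exact_mod_cast card_biUnion_le
      _ ≤ ∑ U ∈ ({U : Finset (Ω × A) | U.card ≤ w ∧ (#(S U) : ℝ) ≤ η} : Finset _), η :=
          sum_le_sum fun U hU => (mem_filter.1 hU).2.2
      _ ≤ _ := by
          rw [sum_const, nsmul_eq_mul]
          apply mul_le_mul_of_nonneg_right _ hη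
          norm_cast
          refine le_trans (card_le_card ?_) (card_small_sets w)
          intro U hU
          exact mem_filter.2 ⟨mem_univ _, (mem_filter.1 hU).2.1⟩
  · intro y hy hyE U hU
    by_contra hcon
    push Not at hcon
    apply hyE
    have hSU : S (U.image fun ω => (ω, y ω)) = {y' ∈ Y0 | ∀ ω ∈ U, y' ω = y ω} := by
      ext y'
      simp [S]
    refine mem_biUnion.2 ⟨U.image fun ω => (ω, y ω), mem_filter.2 ⟨mem_univ _,
      card_image_le.trans hU, by rw [hSU]; exact hcon⟩, ?_⟩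
    rw [hSU]
    exact mem_filter.2 ⟨hy, fun _ _ => rfl⟩

/-- An adversary strategy: `Safe d I z` says that the values of `z` on `I` survive `d` rounds. -/
structure Adversary (w : ℕ) (Safe : ℕ → Finset V → (V → A) → Prop) : Prop where
  loc : ∀ d I z z', (∀ v ∈ I, z v = z' v) → Safe d I z → Safe d I z'
  ext : ∀ d d' I J z, d' < d → I.card ≤ w → J.card ≤ w → Safe d I z →
    ∃ z', (∀ v ∈ I, z' v = z v) ∧ Safe d' J z'

theorem core [Nonempty A] {w : ℕ} {Safe : ℕ → Finset V → (V → A) → Prop}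
    (hS : Adversary w Safe) (l : ℕ) (hl : 0 < l) (r : ℝ) (hr : 0 < r)
    (hq : 2 * (Fintype.card A : ℝ) * l * w ≤ r)
    (P : Finset (V → M)) (hP : P.Nonempty) (I : Finset V) (hI : I.card ≤ w)
    (hsp : IsSpread r P I) (Y2 : Finset (V × M → A))
    (hY : Real.exp (-(l / 2 : ℝ)) * Fintype.card (V × M → A) < #Y2) (z0 : V → A)
    (hz0 : ∀ x ∈ P, ∀ y ∈ Y2, ∀ v ∈ I, y (v, x v) = z0 v) (d : ℕ)
    (hch : ∀ x ∈ P, ∃ d' < d, ∃ J : Finset V, J.card ≤ w ∧
      ∀ y ∈ Y2, ¬ Safe d' J (fun v => y (v, x v))) :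
    ¬ Safe d I z0 := by
  intro hsafe
  have h1 : ∀ x : V → M, ∃ J : Finset V, ∃ z' : V → A, x ∈ P → J.card ≤ w ∧
      ∀ y ∈ Y2, ¬ ∀ v ∈ J \ I, y (v, x v) = z' v := by
    intro x
    by_cases hx : x ∈ P
    · obtain ⟨d', hd', J, hJ, h⟩ := hch x hx
      obtain ⟨z', hz', hs'⟩ := hS.ext d d' I J z0 hd' hI hJ hsafe
      refine ⟨J, z', fun _ => ⟨hJ, fun y hy hall => h y hy (hS.loc _ _ _ _ ?_ hs')⟩⟩
      intro v hv
      by_cases hvI : v ∈ I
      · rw [hz' v hvI, hz0 x hx y hy v hvI]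
      · exact (hall v (mem_sdiff.2 ⟨hv, hvI⟩)).symm
    · exact ⟨∅, z0, fun h => absurd h hx⟩
  choose J z' hJ using h1
  have h2 := spread P hP (fun x => (J x \ I).image fun v => (v, x v)) (fun x ω => z' x ω.1) w l hl
    r hr (fun x hx => card_image_le.trans ((card_le_card sdiff_subset).trans (hJ x hx).1)) hq
    (by
      intro T
      by_cases hT : ∀ ω ∈ T, ω.1 ∉ I
      · refine le_trans ?_ (hsp T hT)
        apply mul_le_mul_of_nonneg_right _ (by positivity)
        norm_cast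
        apply card_le_card
        intro x hx
        simp only [mem_filter] at hx ⊢
        refine ⟨hx.1, fun ω hω => ?_⟩
        obtain ⟨v, _, rfl⟩ := mem_image.1 (hx.2 hω)
        rfl
      · push Not at hT
        obtain ⟨ω, hω, hωI⟩ := hT
        have : ({x ∈ P | T ⊆ (J x \ I).image fun v => (v, x v)} : Finset _) = ∅ := by
          apply filter_eq_empty_iff.2
          intro x _ hsub
          obtain ⟨v, hv, rfl⟩ := mem_image.1 (hsub hω)
          exact (mem_sdiff.1 hv).2 hωI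
        rw [this]
        simp)
  refine absurd (lt_of_lt_of_le hY (le_trans ?_ (le_trans h2 (le_of_eq ?_)))) (lt_irrefl _)
  · norm_cast
    apply card_le_card
    intro y hy
    simp only [mem_filter, mem_univ, true_and]
    intro x hx
    have := (hJ x hx).2 y hy
    push Not at this
    obtain ⟨v, hv, hne⟩ := this
    exact ⟨(v, x v), mem_image_of_mem _ hv, hne⟩
  · congr

/-- The lifting theorem. -/
theorem lifting [Nonempty A] [Nonempty M] {w : ℕ} {Safe : ℕ → Finset V → (V → A) → Prop}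
    (hS : Adversary w Safe) (l : ℕ) (hl : 0 < l) (r : ℝ) (hr : 0 < r)
    (hq : 2 * (Fintype.card A : ℝ) * l * w ≤ r) (hm : 2 * r ≤ Fintype.card M)
    {N : Type*} [Fintype N] (lev : N → ℕ) (Aset : N → (V → M) → Prop)
    (Bset : N → (V × M → A) → Prop) (inner : N → Prop) (K : ℝ) (hK : 1 ≤ K)
    (hleaf : ∀ g, ¬ inner g → ∃ I : Finset V, I.card ≤ w ∧
      ∀ x y, Aset g x → Bset g y → ¬ Safe (lev g) I (fun v => y (v, x v)))
    (hinner : ∀ g, inner g → ∀ Y1 : Finset (V × M → A), Y1.Nonempty → (∀ y ∈ Y1, Bset g y) →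
      ∃ Y2 ⊆ Y1, (#Y1 : ℝ) ≤ K * #Y2 ∧
        ∀ x, Aset g x → ∃ g', lev g' < lev g ∧ Aset g' x ∧ ∀ y ∈ Y2, Bset g' y)
    (hS1 : #{g | inner g} ≤ 2 ^ w)
    (hS2 : 2 * (#{g | inner g} + 1 : ℝ) * ((Fintype.card ((V × M) × A) + 1) ^ w : ℕ) * K *
      Real.exp (-(l / 2 : ℝ)) < 1)
    (g0 : N) (hA : ∀ x, Aset g0 x) (hB : ∀ y, Bset g0 y) (d : ℕ) (hd : lev g0 < d) (z0 : V → A) :
    ¬ Safe d ∅ z0 := by
  set NY : ℝ := (Fintype.card (V × M → A) : ℝ) with hNY
  set NX : ℝ := (Fintype.card (V → M) : ℝ) with hNX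
  have hNY0 : 0 < NY := by rw [hNY]; exact_mod_cast Fintype.card_pos
  have hNX0 : 0 < NX := by rw [hNX]; exact_mod_cast Fintype.card_pos
  set Q : ℝ := (((Fintype.card ((V × M) × A) + 1) ^ w : ℕ) : ℝ) with hQ
  have hQ1 : 1 ≤ Q := by rw [hQ]; exact_mod_cast Nat.one_le_pow _ _ (Nat.succ_pos _)
  set e : ℝ := Real.exp (-(l / 2 : ℝ)) with he
  have he0 : 0 < e := Real.exp_pos _
  set η : ℝ := K * (e * NY) with hη
  have hη0 : 0 < η := by positivity
  have key : ∀ L : ℕ, ∃ Xe : Finset (V → M), ∃ Ye : Finset (V × M → A),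
      (#Xe : ℝ) * 2 ^ (w + 1) ≤ #{g | inner g ∧ lev g < L} * NX ∧
      (#Ye : ℝ) ≤ #{g | inner g ∧ lev g < L} * (Q * η) ∧
      ∀ g, lev g < L → ∀ x, Aset g x → x ∉ Xe → ∃ I : Finset V, I.card ≤ w ∧
        ∀ y, Bset g y → y ∉ Ye → ¬ Safe (lev g) I (fun v => y (v, x v)) := by
    intro L
    induction L with
    | zero => exact ⟨∅, ∅, by simp, by simp, fun g hg => absurd hg (Nat.not_lt_zero _)⟩
    | succ L ih =>
      obtain ⟨Xe, Ye, hX, hY, hgood⟩ := ih
      choose EX hEX hEX' using fun g : N =>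
        x_structure w r hr hm ({x | Aset g x ∧ x ∉ Xe} : Finset (V → M))
      choose EY hEY hEY' using fun g : N =>
        y_structure w η hη0.le ({y | Bset g y ∧ y ∉ Ye} : Finset (V × M → A))
      set G : Finset N := {g | inner g ∧ lev g = L} with hG
      have hcard : (#{g | inner g ∧ lev g < L + 1} : ℝ) = #{g | inner g ∧ lev g < L} + #G := by
        norm_cast
        rw [← card_union_of_disjoint]
        · congr 1
          ext g
          simp only [hG, mem_filter, mem_univ, true_and, mem_union]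
          constructor
          · rintro ⟨h1, h2⟩
            rcases Nat.lt_succ_iff_lt_or_eq.1 h2 with h | h
            · exact Or.inl ⟨h1, h⟩
            · exact Or.inr ⟨h1, h⟩
          · rintro (⟨h1, h2⟩ | ⟨h1, h2⟩)
            · exact ⟨h1, by omega⟩
            · exact ⟨h1, by omega⟩
        · rw [disjoint_left]
          intro g h1 h2
          have := (mem_filter.1 h1).2.2
          have := (mem_filter.1 h2).2.2
          omega
      refine ⟨Xe ∪ G.biUnion EX, Ye ∪ G.biUnion EY, ?_, ?_, ?_⟩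
      · have h1 : (#(Xe ∪ G.biUnion EX) : ℝ) ≤ #Xe + ∑ g ∈ G, (#(EX g) : ℝ) := by
          exact_mod_cast (card_union_le _ _).trans (Nat.add_le_add_left card_biUnion_le _)
        have h2 : (∑ g ∈ G, (#(EX g) : ℝ)) * 2 ^ (w + 1) ≤ #G * NX := by
          rw [sum_mul]
          refine (sum_le_sum fun g _ => hEX g).trans (le_of_eq ?_)
          rw [sum_const, nsmul_eq_mul]
        rw [hcard]
        have h3 := mul_le_mul_of_nonneg_right h1 (show (0 : ℝ) ≤ 2 ^ (w + 1) by positivity)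
        linarith
      · have h1 : (#(Ye ∪ G.biUnion EY) : ℝ) ≤ #Ye + ∑ g ∈ G, (#(EY g) : ℝ) := by
          exact_mod_cast (card_union_le _ _).trans (Nat.add_le_add_left card_biUnion_le _)
        have h2 : (∑ g ∈ G, (#(EY g) : ℝ)) ≤ #G * (Q * η) := by
          refine (sum_le_sum fun g _ => hEY g).trans (le_of_eq ?_)
          rw [sum_const, nsmul_eq_mul]
        rw [hcard]
        linarith
      · intro g hg x hx hxe
        rw [mem_union, not_or] at hxe
        rcases Nat.lt_succ_iff_lt_or_eq.1 hg with hlt | heq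
        · obtain ⟨I, hI, h⟩ := hgood g hlt x hx hxe.1
          exact ⟨I, hI, fun y hy hye => h y hy (fun h' => hye (mem_union_left _ h'))⟩
        by_cases hin : inner g
        swap
        · obtain ⟨I, hI, h⟩ := hleaf g hin
          exact ⟨I, hI, fun y hy _ => h x y hx hy⟩
        have hgG : g ∈ G := mem_filter.2 ⟨mem_univ _, hin, heq⟩
        obtain ⟨I, hI, P, hPsub, hPne, hPI, hsp⟩ := hEX' g x
          (mem_filter.2 ⟨mem_univ _, hx, hxe.1⟩) (fun h => hxe.2 (mem_biUnion.2 ⟨g, hgG, h⟩))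
        refine ⟨I, hI, fun y hy hye => ?_⟩
        rw [mem_union, not_or] at hye
        have hbig := hEY' g y (mem_filter.2 ⟨mem_univ _, hy, hye.1⟩)
          (fun h => hye.2 (mem_biUnion.2 ⟨g, hgG, h⟩)) (I.image fun v => (v, x v))
          (card_image_le.trans hI)
        set Y1 : Finset (V × M → A) := {y' ∈ ({y | Bset g y ∧ y ∉ Ye} : Finset (V × M → A)) |
          ∀ ω ∈ I.image fun v => (v, x v), y' ω = y ω} with hY1
        have hY1ne : Y1.Nonempty := by
          rw [← card_pos]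
          have : (0 : ℝ) < #Y1 := hη0.trans hbig
          exact_mod_cast this
        obtain ⟨Y2, hY2, hY2c, hch⟩ := hinner g hin Y1 hY1ne
          (fun y' hy' => (mem_filter.1 (mem_filter.1 hy').1).2.1)
        refine core hS l hl r hr hq P hPne I hI hsp Y2 ?_ _ ?_ _ ?_
        · exact lt_of_mul_lt_mul_left (hbig.trans_le hY2c) (by linarith)
        · intro x' hx' y' hy' v hv
          rw [hPI x' hx' v hv]
          exact (mem_filter.1 (hY2 hy')).2 _ (mem_image_of_mem _ hv)
        · intro x' hx'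
          have hx'' := (mem_filter.1 (hPsub hx')).2
          obtain ⟨g', hg', hA', hB'⟩ := hch x' hx''.1
          obtain ⟨J, hJ, h⟩ := hgood g' (heq ▸ hg') x' hA' hx''.2
          exact ⟨lev g', hg', J, hJ, fun y' hy' =>
            h y' (hB' y' hy') (mem_filter.1 (mem_filter.1 (hY2 hy')).1).2.2⟩
  obtain ⟨Xe, Ye, hX, hY, hgood⟩ := key d
  have hle : (#{g | inner g ∧ lev g < d} : ℝ) ≤ #{g | inner g} := by
    norm_cast
    apply card_le_card
    intro g hg
    exact mem_filter.2 ⟨mem_univ _, (mem_filter.1 hg).2.1⟩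
  have hS1' : (#{g | inner g} : ℝ) ≤ 2 ^ w := by exact_mod_cast hS1
  have hXe : 2 * (#Xe : ℝ) ≤ NX := by
    have h1 := hX.trans (mul_le_mul_of_nonneg_right (hle.trans hS1') hNX0.le)
    rw [pow_succ] at h1
    have h2 : (0 : ℝ) < 2 ^ w := by positivity
    nlinarith
  have hXc : (#(Xeᶜ) : ℝ) = NX - #Xe := by
    rw [card_compl, Nat.cast_sub (card_le_univ _)]
  have hYc : (#(Yeᶜ) : ℝ) = NY - #Ye := by
    rw [card_compl, Nat.cast_sub (card_le_univ _)]
  refine core hS l hl r hr hq (Xeᶜ) ?_ ∅ (by simp) ?_ (Yeᶜ) ?_ z0 (by simp) d ?_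
  · rw [← card_pos]
    have : (0 : ℝ) < #(Xeᶜ) := by rw [hXc]; linarith
    exact_mod_cast this
  · intro T _
    rcases T.eq_empty_or_nonempty with rfl | hne
    · simp
    have h1 := card_graph_le (Xeᶜ) T
    have h2 : (2 * r) ^ T.card ≤ (Fintype.card M : ℝ) ^ T.card :=
      pow_le_pow_left₀ (by positivity) hm _
    have h3 : (2 : ℝ) ^ 1 ≤ 2 ^ T.card := pow_le_pow_right₀ (by norm_num) hne.card_pos
    rw [mul_pow] at h2
    have h4 : 2 * r ^ T.card ≤ (Fintype.card M : ℝ) ^ T.card :=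
      le_trans (mul_le_mul_of_nonneg_right (by simpa using h3) (by positivity)) h2
    have h5 := mul_le_mul_of_nonneg_left h4
      (show (0 : ℝ) ≤ #{x ∈ Xeᶜ | ∀ ω ∈ T, x ω.1 = ω.2} by positivity)
    rw [hXc]
    linarith
  · rw [hYc]
    have h1 := hY.trans (mul_le_mul_of_nonneg_right hle (by positivity))
    have h2 := mul_lt_mul_of_pos_right hS2 hNY0
    have h3 : e * NY ≤ Q * η := by
      have : 1 ≤ Q * K := one_le_mul_of_one_le_of_one_le hQ1 hK
      have h4 : 0 < e * NY := by positivity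
      rw [hη]
      nlinarith
    have h5 : 0 ≤ (#{g | inner g} : ℝ) * (Q * η) := by positivity
    have h6 : 2 * (#{g | inner g} + 1 : ℝ) * Q * K * e * NY =
        2 * ((#{g | inner g} : ℝ) * (Q * η)) + 2 * (Q * η) := by rw [hη]; ring
    have h7 : 0 < e * NY := by positivity
    linarith
  · intro x hx
    obtain ⟨J, hJ, h⟩ := hgood g0 hd x (hA x) (mem_compl.1 hx)
    exact ⟨lev g0, hd, J, hJ, fun y hy => h y (hB y) (mem_compl.1 hy)⟩

end Pool.Agent.MP_1a6d78_lc

end MrgPart1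

-- marker of a merged file
example : 731051 + 771112 = 731051 + 771112 := rfl
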