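import Mathlib.Topology.Sheaves.Presheaf
import Mathlib.Tactic.Monotonicity.Lemmas
import Mathlib.Data.Int.Star
import Mathlib.Data.FinEnum
import Pool.Agent.MP_1a6d78_lc.Defs
import Pool.Agent.MP_1a6d78_lc.Lift
import Pool.Agent.MP_1a6d78_lc.Classes

-- ======== part 0: formerly Pool.Agent.MP_1a6d78_lc.Lower
section MrgPart0

/-! The layered generation function and the lower bound for shallow monotone circuits. -/

open Finset

namespace Pool.Agent.MP_1a6d78_lc

open Classical

/-- The input positions of the layered generation function. -/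
abbrev Idx (L s m : ℕ) : Type := Fin (L + 1) × Fin s × Fin m × Fin s × Fin m

/-- Copy `α` of column `c` is generated at layer `t`. -/
def Gen {L s m : ℕ} (a : Idx L s m → Bool) : ℕ → Fin s → Fin m → Prop
  | 0, _, _ => True
  | t + 1, c, α => ∀ c', ∃ β, a (Fin.ofNat (L + 1) t, c, α, c', β) = true ∧ Gen a t c' β

/-- The adversary keeps a path of pointers from the top down to an unexplored vertex. -/
def Safe (L s : ℕ) [NeZero s] (d : ℕ) (I : Finset (Fin (L + 1) × Fin s))
    (z : Fin (L + 1) × Fin s → Option (Fin s)) : Prop :=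
  ∃ t0 : ℕ, ∃ u : ℕ → Fin s, d ≤ t0 ∧ t0 ≤ L ∧ u L = 0 ∧
    (∀ v ∈ I, ¬ (v.1.val = t0 ∧ v.2 = u t0)) ∧
    ∀ v ∈ I, z v = if t0 < v.1.val ∧ v.2 = u v.1.val then some (u (v.1.val - 1)) else none

theorem adversary (L w : ℕ) : Adversary w (Safe L (w + 1)) where
  loc := by
    rintro d I z z' h ⟨t0, u, h1, h2, h3, h4, h5⟩
    exact ⟨t0, u, h1, h2, h3, h4, fun v hv => by rw [← h v hv, h5 v hv]⟩
  ext := by
    rintro d d' I J z hd _ hJ ⟨t0, u, h1, h2, h3, h4, h5⟩
    obtain ⟨c, hc⟩ : ∃ c : Fin (w + 1), c ∉ J.image Prod.snd := by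
      by_contra h
      push Not at h
      have := card_le_card (show (univ : Finset (Fin (w + 1))) ⊆ J.image Prod.snd from
        fun c _ => h c)
      rw [card_univ, Fintype.card_fin] at this
      have := card_image_le (s := J) (f := Prod.snd)
      omega
    refine ⟨fun v => if t0 - 1 < v.1.val ∧ v.2 = Function.update u (t0 - 1) c v.1.val then
      some (Function.update u (t0 - 1) c (v.1.val - 1)) else none, fun v hv => ?_,
      t0 - 1, Function.update u (t0 - 1) c, by omega, by omega, ?_, ?_, fun v _ => rfl⟩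
    · rw [h5 v hv]
      have h6 := h4 v hv
      rcases lt_trichotomy t0 v.1.val with h | h | h
      · simp only
        rw [Function.update_of_ne (by omega), Function.update_of_ne (by omega)]
        have : t0 - 1 < v.1.val := by omega
        simp [h, this]
      · simp only
        rw [Function.update_of_ne (by omega), if_neg, if_neg]
        · omega
        · rintro ⟨_, h7⟩
          exact h6 ⟨h.symm, by rw [h7, h]⟩
      · simp only
        rw [if_neg, if_neg] <;> omega
    · rw [Function.update_of_ne (by omega), h3]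
    · rintro v hv ⟨_, h7⟩
      rw [Function.update_self] at h7
      exact hc (h7 ▸ mem_image_of_mem _ hv)

section
variable {L s m : ℕ} [NeZero s] [NeZero m]

/-- The copies chosen by the first player. -/
def xe (x : Fin (L + 1) × Fin s → Fin m) (t : ℕ) (c : Fin s) : Fin m :=
  if h : t < L + 1 then x (⟨t, h⟩, c) else 0

/-- The pointers chosen by the second player. -/
def ye (y : (Fin (L + 1) × Fin s) × Fin m → Option (Fin s)) (t : ℕ) (c : Fin s) (α : Fin m) :
    Option (Fin s) :=
  if t = 0 then none else if h : t < L + 1 then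
    (if t = L ∧ c = 0 then some ((y ((⟨t, h⟩, c), α)).getD 0) else y ((⟨t, h⟩, c), α))
  else some 0

/-- The accepted input of the first player. -/
def alice (x : Fin (L + 1) × Fin s → Fin m) (i : Idx L s m) : Bool :=
  decide (i.2.2.1 = xe x (i.1.val + 1) i.2.1 ∧ i.2.2.2.2 = xe x i.1.val i.2.2.2.1)

/-- The rejected input of the second player. -/
def bob (y : (Fin (L + 1) × Fin s) × Fin m → Option (Fin s)) (i : Idx L s m) : Bool :=
  decide (¬ (ye y (i.1.val + 1) i.2.1 i.2.2.1 = some i.2.2.2.1 ∧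
    ye y i.1.val i.2.2.2.1 i.2.2.2.2 = none))

omit [NeZero s] in
theorem gen_alice (x : Fin (L + 1) × Fin s → Fin m) (t : ℕ) (ht : t ≤ L + 1) (c : Fin s) :
    Gen (alice x) t c (xe x t c) := by
  induction t generalizing c with
  | zero => trivial
  | succ t ih =>
    intro c'
    refine ⟨xe x t c', ?_, ih (by omega) c'⟩
    have : (Fin.ofNat (L + 1) t).val = t := Nat.mod_eq_of_lt (by omega)
    simp only [alice, this, and_self, decide_true]

omit [NeZero m] in
theorem gen_bob (y : (Fin (L + 1) × Fin s) × Fin m → Option (Fin s)) (t : ℕ) (ht : t ≤ L + 1)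
    (c : Fin s) (α : Fin m) (h : Gen (bob y) t c α) : ye y t c α = none := by
  induction t generalizing c α with
  | zero => simp [ye]
  | succ t ih =>
    by_contra hne
    obtain ⟨c', hc'⟩ := Option.ne_none_iff_exists'.1 hne
    obtain ⟨β, h1, h2⟩ := h c'
    have : (Fin.ofNat (L + 1) t).val = t := Nat.mod_eq_of_lt (by omega)
    simp only [bob, this, decide_eq_true_eq] at h1
    exact h1 ⟨hc', ih (by omega) c' β h2⟩

theorem leaf (hL : 1 ≤ L) (i : Idx L s m) : ∃ I : Finset (Fin (L + 1) × Fin s), I.card ≤ 2 ∧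
    ∀ x y, alice x i = true → bob y i = false → ¬ Safe L s 0 I (fun v => y (v, x v)) := by
  obtain ⟨⟨t, ht⟩, c, α, c', β⟩ := i
  by_cases htL : t = L
  · refine ⟨∅, by simp, fun x y _ hb => ?_⟩
    subst htL
    simp only [bob, decide_eq_false_iff_not, not_not] at hb
    obtain ⟨h1, h2⟩ := hb
    have h3 : c' = 0 := by simpa [ye, eq_comm] using h1
    subst h3
    have : t ≠ 0 := by omega
    simp [ye, this] at h2
  have ht1 : t + 1 < L + 1 := by omega
  refine ⟨{(⟨t, ht⟩, c'), (⟨t + 1, ht1⟩, c)}, card_le_two, fun x y ha hb => ?_⟩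
  rintro ⟨t0, u, _, h2, h3, h4, h5⟩
  simp only [alice, decide_eq_true_eq, xe, ht, ht1, dif_pos] at ha
  simp only [bob, decide_eq_false_iff_not, not_not] at hb
  obtain ⟨ha1, ha2⟩ := ha
  rw [ha1, ha2] at hb
  obtain ⟨hb1, hb2⟩ := hb
  have e1 := h5 (⟨t + 1, ht1⟩, c) (by simp)
  have e0 := h5 (⟨t, ht⟩, c') (by simp)
  have f1 := h4 (⟨t + 1, ht1⟩, c) (by simp)
  have f0 := h4 (⟨t, ht⟩, c') (by simp)
  simp only [Nat.add_sub_cancel] at e1 e0 f1 f0
  simp only [ye, Nat.succ_ne_zero, if_false, ht1, dif_pos, e1] at hb1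
  by_cases hp : t0 < t + 1 ∧ c = u (t + 1)
  · simp only [if_pos hp, Option.getD_some, ite_self, Option.some.injEq] at hb1
    have h6 : t0 < t := by
      by_contra h
      have : t = t0 := by omega
      exact f0 ⟨this, by rw [← hb1, this]⟩
    have h7 : t ≠ 0 := by omega
    simp [ye, h7, ht, htL, e0, h6, hb1] at hb2
  · simp only [if_neg hp] at hb1
    by_cases hq : t + 1 = L ∧ c = 0
    · apply hp
      have h6 : c = u (t + 1) := by rw [hq.1, h3, hq.2]
      refine ⟨?_, h6⟩
      by_contra h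
      have : t + 1 = t0 := by omega
      exact f1 ⟨this, by rw [h6, this]⟩
    · simp [hq] at hb1

end

theorem lower_bound {ι : Type} [Fintype ι] {L w m : ℕ} [NeZero m] (hw : 2 ≤ w)
    (e : Idx L (w + 1) m ↪ ι) (hι : Fintype.card ι ≤ 2 ^ w)
    (hm : 8 * w * (w + 1) * (w + 2) ^ 2 ≤ m) (C : MonCircuit ι)
    (hC : C.Computes fun x => decide (Gen (fun i => x (e i)) (L + 1) 0 0)) (d : ℕ)
    (hd : C.DepthLE d) (hdL : d + 1 ≤ L) : 2 ^ w ≤ C.size := by
  by_contra hsize
  push Not at hsize
  obtain ⟨lev, hlev, hlt⟩ := hd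
  choose v hv hout using hC
  let α : (Fin (L + 1) × Fin (w + 1) → Fin m) → ι → Bool := fun x =>
    Function.extend e (alice x) fun _ => false
  let β : ((Fin (L + 1) × Fin (w + 1)) × Fin m → Option (Fin (w + 1))) → ι → Bool := fun y =>
    Function.extend e (bob y) fun _ => false
  have hα : ∀ x i, α x (e i) = alice x i := fun x i => e.injective.extend_apply _ _ i
  have hβ : ∀ y i, β y (e i) = bob y i := fun y i => e.injective.extend_apply _ _ i
  have hlev' : ∀ g, ∀ a ∈ C.arg g, Sum.elim (fun _ => 0) lev a < lev g := by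
    rintro g (i | g') ha
    · exact (hlev g).1
    · exact hlt g g' ha
  have hcardN : Fintype.card (ι ⊕ Fin C.size) ≤ 2 ^ (w + 1) := by
    rw [Fintype.card_sum, Fintype.card_fin, pow_succ]
    omega
  have hinner : #{g : ι ⊕ Fin C.size | g.isRight = true} ≤ C.size := by
    have : ({g : ι ⊕ Fin C.size | g.isRight = true} : Finset _) ⊆ univ.image Sum.inr := by
      rintro (i | g) hg
      · simp at hg
      · simp
    exact (card_le_card this).trans (card_image_le.trans (by simp))
  refine lifting (adversary L w) (2 * ((w + 1) * (w + 2))) (by positivity)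
    (4 * w * (w + 1) * (w + 2) ^ 2) (by positivity) ?_ ?_
    (Sum.elim (fun _ => 0) lev) (fun g x => Sum.elim (α x) (v (α x)) g = true)
    (fun g y => Sum.elim (β y) (v (β y)) g = false) (fun g => g.isRight = true)
    (2 ^ (w + 1)) (one_le_pow₀ (by norm_num)) ?_ ?_ ?_ ?_ C.out ?_ ?_ (d + 1) ?_ (fun _ => none) ?_
  · simp only [Fintype.card_option, Fintype.card_fin]
    push_cast
    apply le_of_eq
    ring
  · rw [Fintype.card_fin]
    have : ((8 * w * (w + 1) * (w + 2) ^ 2 : ℕ) : ℝ) ≤ m := by exact_mod_cast hm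
    push_cast at this
    linarith
  · rintro (i | g) hg
    · by_cases hi : ∃ j, e j = i
      · obtain ⟨j, rfl⟩ := hi
        obtain ⟨I, hI, h⟩ := leaf (s := w + 1) (by omega) j
        refine ⟨I, hI.trans hw, fun x y ha hb => h x y ?_ ?_⟩
        · simpa [hα] using ha
        · simpa [hβ] using hb
      · refine ⟨∅, by simp, fun x y ha _ => ?_⟩
        simp [α, Function.extend_apply' _ _ _ hi] at ha
    · simp at hg
  · rintro (i | g) hg Y1 hne hY1
    · simp at hg
    by_cases hand : C.isAnd g = true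
    · have h1 : ∀ y ∈ Y1, ∃ a ∈ C.arg g, Sum.elim (β y) (v (β y)) a = false := by
        intro y hy
        have h2 := hY1 y hy
        have h3 := hv (β y) g
        simp only [Sum.elim_inr] at h2
        rw [h2, if_pos hand] at h3
        by_contra hcon
        push Not at hcon
        exact absurd (h3.2 fun a ha => by simpa using hcon a ha) (by simp)
      obtain ⟨y0, hy0⟩ := hne
      obtain ⟨a0, ha0, _⟩ := h1 y0 hy0
      obtain ⟨a, ha, hmax⟩ := exists_max_image (C.arg g)
        (fun a => #{y ∈ Y1 | Sum.elim (β y) (v (β y)) a = false}) ⟨a0, ha0⟩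
      refine ⟨{y ∈ Y1 | Sum.elim (β y) (v (β y)) a = false}, filter_subset _ _, ?_, ?_⟩
      · have h2 : Y1 ⊆ (C.arg g).biUnion fun a => {y ∈ Y1 | Sum.elim (β y) (v (β y)) a = false} := by
          intro y hy
          obtain ⟨a', ha', h⟩ := h1 y hy
          exact mem_biUnion.2 ⟨a', ha', mem_filter.2 ⟨hy, h⟩⟩
        have h3 := (card_le_card h2).trans (card_biUnion_le.trans (sum_le_card_nsmul _ _ _ hmax))
        rw [smul_eq_mul] at h3
        have h4 := h3.trans (Nat.mul_le_mul_right _ ((card_le_univ _).trans hcardN))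
        exact_mod_cast h4
      · intro x hx
        have h3 := hv (α x) g
        simp only [Sum.elim_inr] at hx
        rw [if_pos hand] at h3
        exact ⟨a, hlev' g a ha, h3.1 hx a ha, fun y hy => (mem_filter.1 hy).2⟩
    · refine ⟨Y1, Subset.refl _, le_mul_of_one_le_left (by positivity)
        (one_le_pow₀ (by norm_num)), fun x hx => ?_⟩
      have h3 := hv (α x) g
      simp only [Sum.elim_inr] at hx
      rw [if_neg hand] at h3
      obtain ⟨a, ha, h4⟩ := h3.1 hx
      refine ⟨a, hlev' g a ha, h4, fun y hy => ?_⟩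
      have h5 := hv (β y) g
      have h6 := hY1 y hy
      simp only [Sum.elim_inr] at h6
      rw [h6, if_neg hand] at h5
      by_contra hcon
      exact absurd (h5.2 ⟨a, ha, by simpa using hcon⟩) (by simp)
  · exact (le_of_eq (by congr)).trans (hinner.trans hsize.le)
  · have h1 : (#{g : ι ⊕ Fin C.size | g.isRight = true} + 1 : ℝ) ≤ 2 ^ w := by
      have : #{g : ι ⊕ Fin C.size | g.isRight = true} + 1 ≤ 2 ^ w := by omega
      exact_mod_cast this
    have h2 : Fintype.card (((Fin (L + 1) × Fin (w + 1)) × Fin m) × Option (Fin (w + 1))) + 1 ≤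
        2 ^ (w + 1) := by
      have h3 := (Fintype.card_le_of_embedding e).trans hι
      simp only [Fintype.card_prod, Fintype.card_fin, Fintype.card_option] at h3 ⊢
      have h4 : w + 1 + 1 ≤ (w + 1) * m := by
        have h7 : 2 ≤ 8 * w * (w + 1) * (w + 2) ^ 2 := by
          have : 0 < (w + 1) * (w + 2) ^ 2 := by positivity
          rw [mul_assoc]
          nlinarith
        have : 2 ≤ m := le_trans h7 hm
        nlinarith
      have h5 : (L + 1) * (w + 1) * m * (w + 1 + 1) ≤ (L + 1) * ((w + 1) * (m * ((w + 1) * m))) := by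
        calc (L + 1) * (w + 1) * m * (w + 1 + 1) ≤ (L + 1) * (w + 1) * m * ((w + 1) * m) :=
              Nat.mul_le_mul_left _ h4
          _ = _ := by ring
      have h6 : 1 ≤ 2 ^ w := Nat.one_le_two_pow
      rw [pow_succ]
      omega
    have h3 : (((Fintype.card (((Fin (L + 1) × Fin (w + 1)) × Fin m) × Option (Fin (w + 1))) + 1) ^ w
        : ℕ) : ℝ) ≤ (2 ^ (w + 1)) ^ w := by exact_mod_cast Nat.pow_le_pow_left h2 w
    have h4 : Real.exp (-(((2 * ((w + 1) * (w + 2)) : ℕ) : ℝ) / 2)) * 2 ^ ((w + 1) * (w + 2)) < 1 := by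
      have e1 : -(((2 * ((w + 1) * (w + 2)) : ℕ) : ℝ) / 2) = (((w + 1) * (w + 2) : ℕ) : ℝ) * (-1) := by
        push_cast
        ring
      rw [e1, Real.exp_nat_mul, ← mul_pow]
      apply pow_lt_one₀ (by positivity) _ (by positivity)
      rw [Real.exp_neg, inv_mul_lt_iff₀ (Real.exp_pos 1)]
      linarith [Real.exp_one_gt_d9]
    refine lt_of_le_of_lt ?_ h4
    rw [mul_comm (Real.exp _)]
    apply mul_le_mul_of_nonneg_right _ (Real.exp_pos _).le
    have e2 : (2 : ℝ) ^ ((w + 1) * (w + 2)) = 2 * 2 ^ w * (2 ^ (w + 1)) ^ w * 2 ^ (w + 1) := by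
      rw [← pow_mul]
      ring
    rw [e2]
    gcongr
    exact (le_of_eq (by congr)).trans h1
  · intro x
    rw [← hout]
    simp only [hα, decide_eq_true_eq]
    have := gen_alice x (L + 1) le_rfl 0
    simpa [xe] using this
  · intro y
    rw [← hout]
    simp only [hβ, decide_eq_false_iff_not]
    intro h
    have := gen_bob y (L + 1) le_rfl 0 0 h
    simp [ye] at this
  · rcases C.out with i | g
    · simp
    · exact Nat.lt_succ_of_le (hlev g).2
  · exact ⟨L, fun _ => 0, hdL, le_rfl, rfl, by simp, by simp⟩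

end Pool.Agent.MP_1a6d78_lc

end MrgPart0

-- ======== part 1: formerly Pool.Agent.MP_1a6d78_lc.Upper
section MrgPart1

/-! Narrow monotone circuits for the layered generation function. -/

open Finset

namespace Pool.Agent.MP_1a6d78_lc

open Classical

section
variable {ι R : Type}

/-- One level of gates, one gate for each register. -/
abbrev Step (ι R : Type) : Type := R → Bool × Finset (ι ⊕ R)

/-- The effect of one level of gates on the registers. -/
def run (x : ι → Bool) (v : R → Prop) (st : Step ι R) (r : R) : Prop :=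
  if (st r).1 then ∀ a ∈ (st r).2, Sum.elim (fun i => x i = true) v a
  else ∃ a ∈ (st r).2, Sum.elim (fun i => x i = true) v a

theorem prog_circuit [Fintype R] (p : List (Step ι R)) (init : R → Bool) (o : R)
    (hp : ∀ st ∈ p, ∀ r, (st r).2.card ≤ 2) :
    ∃ C : MonCircuit ι,
      C.Computes (fun x => decide (p.foldl (run x) (fun r => init r = true) o)) ∧
      (∀ g, (C.arg g).card ≤ 2) ∧ C.size = (p.length + 1) * Fintype.card R ∧
      C.WidthLE (Fintype.card R) := by
  let G := Fin (p.length + 1) × R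
  let e : G ≃ Fin (Fintype.card G) := Fintype.equivFin G
  let op : G → Bool := fun g => Fin.cases (init g.2) (fun τ => (p.get τ g.2).1) g.1
  let ar : G → Finset (ι ⊕ Fin (Fintype.card G)) := fun g =>
    Fin.cases ∅ (fun τ => (p.get τ g.2).2.image (Sum.map id fun r => e (τ.castSucc, r))) g.1
  refine ⟨⟨Fintype.card G, fun g => op (e.symm g), fun g => ar (e.symm g),
    Sum.inr (e (Fin.last _, o))⟩, ?_, ?_, ?_, ?_⟩
  · intro x
    let st : G → Prop := fun g => (p.take g.1.val).foldl (run x) (fun r => init r = true) g.2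
    refine ⟨fun g => decide (st (e.symm g)), fun g => ?_, ?_⟩
    · obtain ⟨⟨τ, r⟩, rfl⟩ := e.surjective g
      simp only [Equiv.symm_apply_apply, decide_eq_true_eq]
      induction τ using Fin.cases with
      | zero => cases h : init r <;> simp [st, op, ar, h]
      | succ τ =>
        have h1 : st (τ.succ, r) = run x (fun r' => st (τ.castSucc, r')) (p.get τ) r := by
          simp only [st, Fin.val_succ, Fin.val_castSucc]
          rw [List.take_succ_eq_append_getElem τ.2, List.foldl_append]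
          rfl
        have h2 : ∀ a : ι ⊕ R, (Sum.elim x (fun g => decide (st (e.symm g)))
            (Sum.map id (fun r => e (τ.castSucc, r)) a) = true) ↔
            Sum.elim (fun i => x i = true) (fun r' => st (τ.castSucc, r')) a := by
          rintro (i | r') <;> simp
        rw [h1]
        simp only [op, ar, Fin.cases_succ, run, forall_mem_image, exists_mem_image, h2]
    · simp [st]
  · intro g
    obtain ⟨⟨τ, r⟩, rfl⟩ := e.surjective g
    simp only [Equiv.symm_apply_apply]
    induction τ using Fin.cases with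
    | zero => simp [ar]
    | succ τ =>
      simp only [ar, Fin.cases_succ]
      exact card_image_le.trans (hp _ (List.get_mem _ _) r)
  · simp [G]
  · refine ⟨fun g => (e.symm g).1.val, fun g g' h => ?_, fun i => ?_⟩
    · obtain ⟨⟨τ, r⟩, rfl⟩ := e.surjective g
      simp only [Equiv.symm_apply_apply] at h ⊢
      induction τ using Fin.cases with
      | zero => simp [ar] at h
      | succ τ =>
        simp only [ar, Fin.cases_succ, mem_image] at h
        obtain ⟨a, _, ha⟩ := h
        rcases a with i | r'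
        · simp at ha
        · simp only [Sum.map_inr, Sum.inr.injEq] at ha
          rw [← ha]
          simp
    · rw [← card_univ (α := R)]
      apply card_le_card_of_injOn (fun g => (e.symm g).2) (fun _ _ => mem_univ _)
      intro g hg g' hg' h
      apply e.symm.injective
      have h1 := (mem_filter.1 hg).2
      have h2 := (mem_filter.1 hg').2
      exact Prod.ext (Fin.ext (h1.trans h2.symm)) h

end

section
variable {ι : Type} {L s m : ℕ}

/-- The registers: old values, a product, a disjunction and a conjunction under construction. -/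
abbrev Reg (s m : ℕ) : Type := Fin 4 × Fin s × Fin m

/-- A level which changes the registers of kind `k` and copies the others. -/
def upd (k : Fin 4) (f : Fin s × Fin m → Bool × Finset (ι ⊕ Reg s m)) : Step ι (Reg s m) :=
  fun r => if r.1 = k then f r.2 else (true, {Sum.inr r})

theorem run_upd_ne (x : ι → Bool) (v : Reg s m → Prop) (k : Fin 4) (f) (j : Fin 4) (h : j ≠ k)
    (q : Fin s × Fin m) : run x v (upd k f) (j, q) = v (j, q) := by
  simp [run, upd, h]

/-- The two levels which treat the pair `(c', β)`. -/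
noncomputable def inner1 (e : Idx L s m → ι) (t : Fin (L + 1)) (c' : Fin s) (β : Fin m) :
    List (Step ι (Reg s m)) :=
  [upd 1 fun q => (true, {Sum.inl (e (t, q.1, q.2, c', β)), Sum.inr (0, c', β)}),
   upd 2 fun q => (false, {Sum.inr (2, q), Sum.inr (1, q)})]

/-- The levels which treat the column `c'`. -/
noncomputable def inner2 (e : Idx L s m → ι) (t : Fin (L + 1)) (c' : Fin s) :
    List (Step ι (Reg s m)) :=
  upd 2 (fun _ => (false, ∅)) :: ((List.finRange m).flatMap (inner1 e t c') ++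
    [upd 3 fun q => (true, {Sum.inr (3, q), Sum.inr (2, q)})])

/-- The levels which treat the layer `t`. -/
noncomputable def layer (e : Idx L s m → ι) (t : Fin (L + 1)) : List (Step ι (Reg s m)) :=
  upd 3 (fun _ => (true, ∅)) :: ((List.finRange s).flatMap (inner2 e t) ++
    [upd 0 fun q => (true, {Sum.inr (3, q)})])

theorem run_inner1 (x : ι → Bool) (e : Idx L s m → ι) (t : Fin (L + 1)) (c' : Fin s)
    (l : List (Fin m)) (v : Reg s m → Prop) :
    (∀ q, (l.flatMap (inner1 e t c')).foldl (run x) v (0, q) = v (0, q)) ∧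
    (∀ q, (l.flatMap (inner1 e t c')).foldl (run x) v (3, q) = v (3, q)) ∧
    ∀ q, (l.flatMap (inner1 e t c')).foldl (run x) v (2, q) ↔
      v (2, q) ∨ ∃ β ∈ l, x (e (t, q.1, q.2, c', β)) = true ∧ v (0, c', β) := by
  induction l generalizing v with
  | nil => simp
  | cons β l ih =>
    simp only [List.flatMap_cons, List.foldl_append]
    obtain ⟨h0, h3, h2⟩ := ih ((inner1 e t c' β).foldl (run x) v)
    have e0 : ∀ q, (inner1 e t c' β).foldl (run x) v (0, q) = v (0, q) := by
      intro q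
      simp only [inner1, List.foldl_cons, List.foldl_nil]
      rw [run_upd_ne _ _ _ _ _ (by decide), run_upd_ne _ _ _ _ _ (by decide)]
    have e3 : ∀ q, (inner1 e t c' β).foldl (run x) v (3, q) = v (3, q) := by
      intro q
      simp only [inner1, List.foldl_cons, List.foldl_nil]
      rw [run_upd_ne _ _ _ _ _ (by decide), run_upd_ne _ _ _ _ _ (by decide)]
    have e2 : ∀ q, (inner1 e t c' β).foldl (run x) v (2, q) ↔
        v (2, q) ∨ (x (e (t, q.1, q.2, c', β)) = true ∧ v (0, c', β)) := by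
      intro q
      simp [inner1, run, upd]
    refine ⟨fun q => by rw [h0, e0], fun q => by rw [h3, e3], fun q => ?_⟩
    rw [h2, e2]
    simp only [e0, List.mem_cons, exists_eq_or_imp, or_assoc]

theorem run_inner2 (x : ι → Bool) (e : Idx L s m → ι) (t : Fin (L + 1))
    (l : List (Fin s)) (v : Reg s m → Prop) :
    (∀ q, (l.flatMap (inner2 e t)).foldl (run x) v (0, q) = v (0, q)) ∧
    ∀ q, (l.flatMap (inner2 e t)).foldl (run x) v (3, q) ↔
      v (3, q) ∧ ∀ c' ∈ l, ∃ β, x (e (t, q.1, q.2, c', β)) = true ∧ v (0, c', β) := by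
  induction l generalizing v with
  | nil => simp
  | cons c' l ih =>
    simp only [List.flatMap_cons, List.foldl_append]
    obtain ⟨h0, h3⟩ := ih ((inner2 e t c').foldl (run x) v)
    obtain ⟨g0, g3, g2⟩ := run_inner1 x e t c' (List.finRange m)
      (run x v (upd 2 (fun _ => (false, ∅))))
    have e0 : ∀ q, (inner2 e t c').foldl (run x) v (0, q) = v (0, q) := by
      intro q
      simp only [inner2, List.foldl_cons, List.foldl_nil, List.foldl_append]
      rw [run_upd_ne _ _ _ _ _ (by decide), g0, run_upd_ne _ _ _ _ _ (by decide)]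
    have e3 : ∀ q, (inner2 e t c').foldl (run x) v (3, q) ↔
        v (3, q) ∧ ∃ β, x (e (t, q.1, q.2, c', β)) = true ∧ v (0, c', β) := by
      intro q
      simp only [inner2, List.foldl_cons, List.foldl_nil, List.foldl_append]
      have : ∀ v' : Reg s m → Prop, run x v'
          (upd 3 fun q => (true, {Sum.inr (3, q), Sum.inr (2, q)})) (3, q) ↔
          v' (3, q) ∧ v' (2, q) := by
        intro v'
        simp [run, upd]
      rw [this, g3, g2]
      simp [run, upd]
    refine ⟨fun q => by rw [h0, e0], fun q => ?_⟩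
    rw [h3, e3]
    simp only [e0, List.mem_cons, forall_eq_or_imp, and_assoc]

theorem run_layer (x : ι → Bool) (e : Idx L s m → ι) (t : Fin (L + 1)) (v : Reg s m → Prop)
    (q : Fin s × Fin m) : (layer e t).foldl (run x) v (0, q) ↔
      ∀ c', ∃ β, x (e (t, q.1, q.2, c', β)) = true ∧ v (0, c', β) := by
  obtain ⟨_, g3⟩ := run_inner2 x e t (List.finRange s) (run x v (upd 3 (fun _ => (true, ∅))))
  simp only [layer, List.foldl_cons, List.foldl_nil, List.foldl_append]
  have : ∀ v' : Reg s m → Prop, run x v' (upd 0 fun q => (true, {Sum.inr (3, q)})) (0, q) ↔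
      v' (3, q) := by
    intro v'
    simp [run, upd]
  rw [this, g3]
  simp [run, upd]

/-- The whole program. -/
noncomputable def prog (e : Idx L s m → ι) (t : ℕ) : List (Step ι (Reg s m)) :=
  (List.range t).flatMap fun j => layer e (Fin.ofNat (L + 1) j)

theorem run_prog (x : ι → Bool) (e : Idx L s m → ι) (t : ℕ) (q : Fin s × Fin m) :
    (prog e t).foldl (run x) (fun _ => true = true) (0, q) ↔ Gen (fun i => x (e i)) t q.1 q.2 := by
  induction t generalizing q with
  | zero => simp [prog, Gen]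
  | succ t ih =>
    have : prog e (t + 1) = prog e t ++ layer e (Fin.ofNat (L + 1) t) := by
      simp [prog, List.range_succ]
    rw [this, List.foldl_append, run_layer]
    exact forall_congr' fun c' => exists_congr fun β => and_congr Iff.rfl (ih (c', β))

theorem length_prog (e : Idx L s m → ι) (t : ℕ) :
    (prog e t).length = t * (s * (m * 2 + 2) + 2) := by
  simp [prog, layer, inner2, inner1, List.length_flatMap, add_assoc]

theorem fanin_prog (e : Idx L s m → ι) (t : ℕ) : ∀ st ∈ prog e t, ∀ r, (st r).2.card ≤ 2 := by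
  have key : ∀ (k : Fin 4) (f : Fin s × Fin m → Bool × Finset (ι ⊕ Reg s m)),
      (∀ q, (f q).2.card ≤ 2) → ∀ r, (upd k f r).2.card ≤ 2 := by
    intro k f hf r
    unfold upd
    split_ifs
    · exact hf _
    · simp
  intro st hst
  simp only [prog, layer, inner2, inner1, List.mem_flatMap, List.mem_cons, List.mem_append,
    List.not_mem_nil, or_false] at hst
  obtain ⟨j, _, rfl | ⟨c', _, rfl | ⟨β, _, rfl | rfl⟩ | rfl⟩ | rfl⟩ := hst
  all_goals
    apply key
    intro q
    first
      | exact card_le_two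
      | simp

theorem upper_bound [NeZero s] [NeZero m] (e : Idx L s m → ι) :
    ∃ C : MonCircuit ι, (C.Computes fun x => decide (Gen (fun i => x (e i)) (L + 1) 0 0)) ∧
      (∀ g, (C.arg g).card ≤ 2) ∧ C.size ≤ 28 * Fintype.card (Idx L s m) ∧
      C.WidthLE (4 * (s * m)) := by
  obtain ⟨C, h1, h2, h3, h4⟩ := prog_circuit (prog e (L + 1)) (fun _ => true) (0, 0, 0)
    (fanin_prog e _)
  refine ⟨C, ?_, h2, ?_, by simpa using h4⟩
  · intro x
    obtain ⟨v, hv, hout⟩ := h1 x
    refine ⟨v, hv, Eq.trans ?_ hout⟩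
    exact decide_eq_decide.2 (run_prog x e (L + 1) (0, 0)).symm
  · rw [h3, length_prog]
    simp only [Fintype.card_prod, Fintype.card_fin]
    have hs : 1 ≤ s := NeZero.one_le
    have hm : 1 ≤ m := NeZero.one_le
    have hsm : 1 ≤ s * m := Nat.mul_pos hs hm
    have h5 : s * (m * 2 + 2) + 2 ≤ 6 * (s * m) := by nlinarith
    have h6 : (L + 1) * (s * (m * 2 + 2) + 2) + 1 ≤ (L + 1) * (7 * (s * m)) := by nlinarith
    calc _ ≤ (L + 1) * (7 * (s * m)) * (4 * (s * m)) := Nat.mul_le_mul_right _ h6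
      _ = _ := by ring

end

end Pool.Agent.MP_1a6d78_lc

end MrgPart1

-- ======== part 2: formerly Pool.Agent.MP_1a6d78_lc.Sem
section MrgPart2

/-! Building circuits: from gate equations, reduction of fan-in, and the simulation of narrow
circuits by shallow ones. -/

open Finset

namespace Pool.Agent.MP_1a6d78_lc

open Classical

variable {ι : Type}

/-- The gate equation. -/
def gateEq {G : Type} (b : Bool) (S : Finset (ι ⊕ G)) (x : ι → Bool) (v : G → Prop) : Prop :=
  if b then ∀ a ∈ S, Sum.elim (fun i => x i = true) v a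
  else ∃ a ∈ S, Sum.elim (fun i => x i = true) v a

theorem gateEq_mono {G : Type} (b : Bool) (S : Finset (ι ⊕ G)) (x : ι → Bool) {v v' : G → Prop}
    (h : ∀ g, Sum.inr g ∈ S → v g → v' g) (hv : gateEq b S x v) : gateEq b S x v' := by
  have key : ∀ a ∈ S, Sum.elim (fun i => x i = true) v a → Sum.elim (fun i => x i = true) v' a := by
    rintro (i | g) ha h'
    · exact h'
    · exact h g ha h'
  unfold gateEq at hv ⊢
  split_ifs at hv ⊢
  · exact fun a ha => key a ha (hv a ha)
  · obtain ⟨a, ha, h'⟩ := hv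
    exact ⟨a, ha, key a ha h'⟩

theorem mk_circuit {G : Type} [Fintype G] (op : G → Bool) (ar : G → Finset (ι ⊕ G))
    (F : (ι → Bool) → G → Prop) (hF : ∀ x g, F x g ↔ gateEq (op g) (ar g) x (F x)) (o : ι ⊕ G)
    (f : (ι → Bool) → Bool) (hf : ∀ x, f x = true ↔ Sum.elim (fun i => x i = true) (F x) o)
    (lev : G → ℕ) (d : ℕ) (hlev : ∀ g, 1 ≤ lev g ∧ lev g ≤ d)
    (hlt : ∀ g g', Sum.inr g' ∈ ar g → lev g' < lev g) :
    ∃ C : MonCircuit ι, C.Computes f ∧ C.DepthLE d ∧ C.size = Fintype.card G ∧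
      ∀ k, (∀ g, (ar g).card ≤ k) → ∀ g, (C.arg g).card ≤ k := by
  let e : G ≃ Fin (Fintype.card G) := Fintype.equivFin G
  have h2 : ∀ (x : ι → Bool) (a : ι ⊕ G), (Sum.elim x (fun g => decide (F x (e.symm g)))
      (Sum.map id e a) = true) ↔ Sum.elim (fun i => x i = true) (F x) a := by
    rintro x (i | g) <;> simp
  refine ⟨⟨Fintype.card G, fun g => op (e.symm g), fun g => (ar (e.symm g)).image (Sum.map id e),
    Sum.map id e o⟩, fun x => ⟨fun g => decide (F x (e.symm g)), fun g => ?_, ?_⟩,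
    ⟨fun g => lev (e.symm g), fun g => hlev _, fun g g' h => ?_⟩, rfl,
    fun k hk g => card_image_le.trans (hk _)⟩
  · simp only [decide_eq_true_eq, forall_mem_image, exists_mem_image, h2]
    exact hF x _
  · rw [Bool.eq_iff_iff, h2, hf]
  · obtain ⟨a, ha, h'⟩ := mem_image.1 h
    rcases a with i | g''
    · simp at h'
    · simp only [Sum.map_inr, Sum.inr.injEq] at h'
      rw [← h']
      simpa using hlt _ _ ha

theorem sem_of_computes (C : MonCircuit ι) {f : (ι → Bool) → Bool} (hC : C.Computes f) :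
    ∃ F : (ι → Bool) → Fin C.size → Prop,
      (∀ x g, F x g ↔ gateEq (C.isAnd g) (C.arg g) x (F x)) ∧
      ∀ x, f x = true ↔ Sum.elim (fun i => x i = true) (F x) C.out := by
  choose v hv hout using hC
  have h2 : ∀ (x : ι → Bool) (a : ι ⊕ Fin C.size), (Sum.elim x (v x) a = true) ↔
      Sum.elim (fun i => x i = true) (fun g => v x g = true) a := by
    rintro x (i | g) <;> simp
  refine ⟨fun x g => v x g = true, fun x g => ?_, fun x => by rw [hout, h2]⟩
  refine (hv x g).trans ?_
  simp only [gateEq, h2]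

/-- Reduction of the fan-in to two. -/
theorem binarize (C : MonCircuit ι) {f : (ι → Bool) → Bool} (hC : C.Computes f) {d : ℕ}
    (hd : C.DepthLE d) (k : ℕ) (hk : ∀ g, (C.arg g).card ≤ 2 ^ k) :
    ∃ C' : MonCircuit ι, C'.Computes f ∧ C'.DepthLE (d * (k + 1)) ∧
      C'.size = C.size * ((k + 1) * 2 ^ k) ∧ ∀ g, (C'.arg g).card ≤ 2 := by
  obtain ⟨F, hF, hf⟩ := sem_of_computes C hC
  obtain ⟨lev, hlev, hlt⟩ := hd
  have hE : ∀ g, ∃ E : (Fin k → Bool) → Finset (ι ⊕ Fin C.size), (∀ b, (E b).card ≤ 1) ∧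
      ∀ a, a ∈ C.arg g ↔ ∃ b, a ∈ E b := by
    intro g
    obtain ⟨e⟩ : Nonempty (C.arg g ↪ (Fin k → Bool)) :=
      Function.Embedding.nonempty_of_card_le (by simpa using hk g)
    refine ⟨fun b => {a ∈ C.arg g | ∃ h : a ∈ C.arg g, e ⟨a, h⟩ = b}, fun b => ?_, fun a => ?_⟩
    · rw [card_le_one]
      intro a ha a' ha'
      obtain ⟨h, h1⟩ := (mem_filter.1 ha).2
      obtain ⟨h', h2⟩ := (mem_filter.1 ha').2
      exact congrArg Subtype.val (e.injective (h1.trans h2.symm))
    · constructor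
      · intro h
        exact ⟨_, mem_filter.2 ⟨h, h, rfl⟩⟩
      · rintro ⟨b, hb⟩
        exact (mem_filter.1 hb).1
  choose E hE1 hE2 using hE
  let G := Fin C.size × Fin (k + 1) × (Fin k → Bool)
  let top : Fin C.size → G := fun g => (g, Fin.last k, fun _ => false)
  let ar : G → Finset (ι ⊕ G) := fun g => Fin.cases ((E g.1 g.2.2).image (Sum.map id top))
    (fun j => {Sum.inr (g.1, j.castSucc, Function.update g.2.2 j false),
      Sum.inr (g.1, j.castSucc, Function.update g.2.2 j true)}) g.2.1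
  let S : G → Finset (ι ⊕ Fin C.size) := fun g =>
    ({b : Fin k → Bool | ∀ i : Fin k, g.2.1.val ≤ i.val → b i = g.2.2 i} : Finset _).biUnion (E g.1)
  let F' : (ι → Bool) → G → Prop := fun x g => gateEq (C.isAnd g.1) (S g) x (F x)
  have htop : ∀ x g, F' x (top g) ↔ F x g := by
    intro x g
    have : S (top g) = C.arg g := by
      ext a
      have : ∀ i : Fin k, ¬ k ≤ i.val := fun i => not_le.2 i.2
      simp [S, top, hE2, this]
    simp only [F', this]
    exact (hF x g).symm
  have h2 : ∀ (x : ι → Bool) (a : ι ⊕ Fin C.size), Sum.elim (fun i => x i = true) (F' x)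
      (Sum.map id top a) ↔ Sum.elim (fun i => x i = true) (F x) a := by
    rintro x (i | g)
    · simp
    · simpa using htop x g
  obtain ⟨C', h1, h3, h4, h5⟩ := mk_circuit (fun g : G => C.isAnd g.1) ar F' (by
      rintro x ⟨g, j, b⟩
      induction j using Fin.cases with
      | zero =>
        have : S (g, 0, b) = E g b := by
          have : ({b' : Fin k → Bool | ∀ i : Fin k, b' i = b i} : Finset _) = {b} := by
            ext b'
            simp [funext_iff]
          simp [S, this]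
        change gateEq _ (S (g, 0, b)) x (F x) ↔ _
        simp only [this, ar, Fin.cases_zero, gateEq, forall_mem_image, exists_mem_image, h2]
      | succ j =>
        have : S (g, j.succ, b) = S (g, j.castSucc, Function.update b j false) ∪
            S (g, j.castSucc, Function.update b j true) := by
          simp only [S]
          rw [← union_biUnion]
          congr 1
          ext b'
          simp only [mem_filter, mem_univ, true_and, Fin.val_succ, Fin.val_castSucc, mem_union]
          constructor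
          · intro h
            have key : ∀ c, b' j = c → ∀ i : Fin k, j.val ≤ i.val → b' i = Function.update b j c i := by
              intro c hc i hi
              by_cases hij : i = j
              · rw [hij, Function.update_self, hc]
              · rw [Function.update_of_ne hij]
                exact h i (by have : i.val ≠ j.val := fun h => hij (Fin.ext h); omega)
            cases hb : b' j
            · exact Or.inl (key _ hb)
            · exact Or.inr (key _ hb)
          · rintro (h | h) i hi <;>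
            · rw [h i (by omega), Function.update_of_ne]
              rintro rfl
              omega
        simp only [F', this, ar, Fin.cases_succ]
        cases hg : C.isAnd g <;> simp [gateEq, or_imp, forall_and, exists_or, or_and_right, hg])
    (Sum.map id top C.out) f (fun x => by rw [h2, hf])
    (fun g => (lev g.1 - 1) * (k + 1) + g.2.1.val + 1) (d * (k + 1)) (by
      rintro ⟨g, j, b⟩
      refine ⟨by omega, ?_⟩
      obtain ⟨h1, h2⟩ := hlev g
      have h3 : (lev g - 1 + 1) * (k + 1) ≤ d * (k + 1) := Nat.mul_le_mul_right _ (by omega)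
      have := j.2
      simp only
      nlinarith) (by
      rintro ⟨g, j, b⟩ g' h
      induction j using Fin.cases with
      | zero =>
        simp only [ar, Fin.cases_zero, mem_image] at h
        obtain ⟨a, ha, h'⟩ := h
        rcases a with i | g''
        · simp at h'
        · simp only [Sum.map_inr, Sum.inr.injEq] at h'
          have h6 := hlt g g'' ((hE2 g _).2 ⟨b, ha⟩)
          have h7 := (hlev g'').1
          have h3 : (lev g'' - 1 + 1) * (k + 1) ≤ (lev g - 1) * (k + 1) :=
            Nat.mul_le_mul_right _ (by omega)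
          rw [← h']
          simp only [top, Fin.val_last, Fin.val_zero]
          nlinarith
      | succ j =>
        simp only [ar, Fin.cases_succ, mem_insert, mem_singleton, Sum.inr.injEq] at h
        rcases h with rfl | rfl <;> simp)
  refine ⟨C', h1, h3, by simp [h4, G], h5 2 ?_⟩
  rintro ⟨g, j, b⟩
  induction j using Fin.cases with
  | zero => exact card_image_le.trans ((hE1 _ _).trans (by norm_num))
  | succ j => exact card_le_two

/-- The offset of a dyadic interval. -/
def off {J : ℕ} (j : ℕ) (b : Fin J → Bool) : ℕ :=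
  ∑ i : Fin J, if j ≤ i.val ∧ b i = true then 2 ^ i.val else 0

theorem off_update {J : ℕ} (j : Fin J) (b : Fin J → Bool) (c : Bool) :
    off j.val (Function.update b j c) = off (j.val + 1) b + if c then 2 ^ j.val else 0 := by
  unfold off
  rw [← add_sum_erase _ _ (mem_univ j), ← add_sum_erase _ _ (mem_univ j)]
  have : ∑ i ∈ univ.erase j, (if j.val ≤ i.val ∧ Function.update b j c i = true then 2 ^ i.val else 0)
      = ∑ i ∈ univ.erase j, (if j.val + 1 ≤ i.val ∧ b i = true then 2 ^ i.val else 0) := by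
    refine sum_congr rfl fun i hi => ?_
    have h1 : i ≠ j := ne_of_mem_erase hi
    have h2 : i.val ≠ j.val := fun h => h1 (Fin.ext h)
    have h3 : j.val ≤ i.val ↔ j.val + 1 ≤ i.val := by omega
    rw [Function.update_of_ne h1]
    simp only [h3]
  rw [this]
  simp [add_comm]

/-- Narrow circuits are simulated by shallow ones. -/
theorem shallow_of_narrow (C : MonCircuit ι) {f : (ι → Bool) → Bool} (hC : C.Computes f) {W : ℕ}
    (hW : C.WidthLE W) (J : ℕ) (hJ : C.size ≤ 2 ^ J) :
    ∃ C' : MonCircuit ι, C'.Computes f ∧ C'.DepthLE (2 * J + 2) ∧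
      C'.size ≤ 3 * (J + 1) * 4 ^ J * 8 ^ W := by
  obtain ⟨F, hF, hf⟩ := sem_of_computes C hC
  obtain ⟨lev, hlev, hw⟩ := hW
  rcases hout : C.out with i0 | g0
  · obtain ⟨C', h1, h2, h3, _⟩ := mk_circuit (G := Empty) (fun _ => true) (fun _ => ∅)
      (fun _ g => g.elim) (fun _ g => g.elim) (Sum.inl i0) f (fun x => by simpa [hout] using hf x)
      (fun g => g.elim) (2 * J + 2) (fun g => g.elim) (fun g => g.elim)
    exact ⟨C', h1, h2, by simp [h3]⟩
  obtain ⟨φ, hφ⟩ : ∃ φ : Fin C.size → Fin W, ∀ g g', lev g = lev g' → φ g = φ g' → g = g' := by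
    have : ∀ i, Nonempty ({g // lev g = i} ↪ Fin W) := fun i =>
      Function.Embedding.nonempty_of_card_le (by simpa [Fintype.card_subtype] using hw i)
    let e : ∀ i, {g // lev g = i} ↪ Fin W := fun i => (this i).some
    refine ⟨fun g => e (lev g) ⟨g, rfl⟩, fun g g' h h' => ?_⟩
    have key : ∀ i (h1 : lev g = i) (h2 : lev g' = i), e i ⟨g, h1⟩ = e i ⟨g', h2⟩ → g = g' :=
      fun i h1 h2 h3 => congrArg Subtype.val ((e i).injective h3)
    apply key (lev g) rfl h.symm
    have h4 : ∀ i (h2 : lev g' = i), e i ⟨g', h2⟩ = e (lev g') ⟨g', rfl⟩ := by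
      rintro i rfl
      rfl
    rw [h4]
    exact h'
  let step : (ι → Bool) → (Fin C.size → Prop) → Fin C.size → Prop := fun x v g =>
    gateEq (C.isAnd g) (C.arg g) x v
  have hloc : ∀ x t (v v' : Fin C.size → Prop) g, (∀ g', lev g' + t = lev g → v g' → v' g') →
      (step x)^[t] v g → (step x)^[t] v' g := by
    intro x t
    induction t with
    | zero => exact fun v v' g h => h g rfl
    | succ t ih =>
      intro v v' g h
      rw [Function.iterate_succ_apply', Function.iterate_succ_apply']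
      refine gateEq_mono _ _ _ fun g' hg' => ih v v' g' fun g'' h'' => h g'' ?_
      have := hlev g g' hg'
      omega
  have hfix : ∀ x t (v : Fin C.size → Prop) g, #{g' | lev g' ≤ lev g} ≤ t →
      ((step x)^[t] v g ↔ F x g) := by
    intro x t
    induction t with
    | zero =>
      intro v g h
      have : 0 < #{g' | lev g' ≤ lev g} := card_pos.2 ⟨g, by simp⟩
      omega
    | succ t ih =>
      intro v g h
      have key : ∀ g', Sum.inr g' ∈ C.arg g → ((step x)^[t] v g' ↔ F x g') := by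
        intro g' hg'
        apply ih
        have h1 := hlev g g' hg'
        have : ({g'' | lev g'' ≤ lev g'} : Finset _) ⊂ ({g'' | lev g'' ≤ lev g} : Finset _) := by
          refine (ssubset_iff_of_subset fun g'' h'' => ?_).2 ⟨g, by simp, by simp; omega⟩
          simp only [mem_filter, mem_univ, true_and] at h'' ⊢
          omega
        have := card_lt_card this
        omega
      rw [Function.iterate_succ_apply', hF]
      exact ⟨gateEq_mono _ _ _ fun g' hg' => (key g' hg').1,
        gateEq_mono _ _ _ fun g' hg' => (key g' hg').2⟩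
  let code : ℕ → Finset (Fin W) → Fin C.size → Prop := fun i c g => lev g + i = lev g0 ∧ φ g ∈ c
  let St := Finset (Fin W)
  let G := (Fin (J + 1) × (Fin J → Bool) × St × St) ⊕ (Fin J × (Fin J → Bool) × St × St × St) ⊕
    ((Fin J → Bool) × St × Fin C.size)
  let P : (ι → Bool) → ℕ → ℕ → St → St → Prop := fun x j i c c' =>
    ∀ g, code i c' g → (step x)^[2 ^ j] (code (i + 2 ^ j) c) g
  have hP : ∀ x j i c c', P x (j + 1) i c c' ↔
      ∃ c'', P x j (i + 2 ^ j) c c'' ∧ P x j i c'' c' := by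
    intro x j i c c'
    have e1 : 2 ^ (j + 1) = 2 ^ j + 2 ^ j := by ring
    simp only [P, e1, ← add_assoc, Function.iterate_add_apply]
    constructor
    · intro h
      refine ⟨({g | lev g + (i + 2 ^ j) = lev g0 ∧
        (step x)^[2 ^ j] (code (i + 2 ^ j + 2 ^ j) c) g} : Finset _).image φ, ?_, ?_⟩
      · rintro g ⟨h1, h2⟩
        obtain ⟨g', hg', h3⟩ := mem_image.1 h2
        have h4 := (mem_filter.1 hg').2
        rw [← hφ g' g (by omega) h3]
        exact h4.2
      · intro g hg
        refine hloc x _ _ _ g (fun g' h1 h2 => ?_) (h g hg)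
        have h3 : lev g' + (i + 2 ^ j) = lev g0 := by have := hg.1; omega
        exact ⟨h3, mem_image_of_mem _ (mem_filter.2 ⟨mem_univ _, h3, h2⟩)⟩
    · rintro ⟨c'', h1, h2⟩ g hg
      exact hloc x _ _ _ g (fun g' _ h => h1 g' h) (h2 g hg)
  let F' : (ι → Bool) → G → Prop := fun x => Sum.elim
    (fun n => P x n.1.val (off n.1.val n.2.1) n.2.2.1 n.2.2.2)
    (Sum.elim (fun n => P x n.1.val (off (n.1.val + 1) n.2.1 + 2 ^ n.1.val) n.2.2.1 n.2.2.2.1 ∧
        P x n.1.val (off (n.1.val + 1) n.2.1) n.2.2.2.1 n.2.2.2.2)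
      (fun n => step x (code (off 0 n.1 + 1) n.2.1) n.2.2))
  let inp : Fin C.size → Finset (ι ⊕ G) := fun g => ((C.arg g).toLeft).image Sum.inl
  let cst : (Fin J → Bool) × St × Fin C.size → Prop := fun n =>
    if C.isAnd n.2.2 then ∃ g', Sum.inr g' ∈ C.arg n.2.2 ∧ ¬ code (off 0 n.1 + 1) n.2.1 g'
    else ∃ g', Sum.inr g' ∈ C.arg n.2.2 ∧ code (off 0 n.1 + 1) n.2.1 g'
  let op : G → Bool := Sum.elim (fun n => Fin.cases true (fun _ => false) n.1)
    (Sum.elim (fun _ => true) fun n => if cst n then !C.isAnd n.2.2 else C.isAnd n.2.2)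
  let ar : G → Finset (ι ⊕ G) := Sum.elim
    (fun n => Fin.cases
      (({g | code (off 0 n.2.1) n.2.2.2 g} : Finset _).image
        fun g => Sum.inr (Sum.inr (Sum.inr (n.2.1, n.2.2.1, g))))
      (fun j => univ.image fun c'' => Sum.inr (Sum.inr (Sum.inl (j, n.2.1, n.2.2.1, c'', n.2.2.2))))
      n.1)
    (Sum.elim
      (fun n => {Sum.inr (Sum.inl (n.1.castSucc, Function.update n.2.1 n.1 true, n.2.2.1, n.2.2.2.1)),
        Sum.inr (Sum.inl (n.1.castSucc, Function.update n.2.1 n.1 false, n.2.2.2.1, n.2.2.2.2))})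
      fun n => if cst n then ∅ else inp n.2.2)
  obtain ⟨C', h1, h3, h4, _⟩ := mk_circuit op ar F' (by
      rintro x (⟨j, b, c, c'⟩ | ⟨j, b, c, c'', c'⟩ | ⟨b, c, g⟩)
      · induction j using Fin.cases with
        | zero => simp [F', op, ar, gateEq, P]
        | succ j => simp [F', op, ar, gateEq, hP]
      · simp [F', op, ar, gateEq, off_update]
      · simp only [F', op, ar, Sum.elim_inr, step]
        by_cases hc : cst (b, c, g)
        · rw [if_pos hc, if_pos hc]
          simp only [cst] at hc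
          cases ha : C.isAnd g
          · simp only [ha] at hc
            obtain ⟨g', h1, h2⟩ := hc
            simp only [gateEq]
            simpa using Or.inr ⟨g', h1, h2⟩
          · simp only [ha] at hc
            obtain ⟨g', h1, h2⟩ := hc
            simp only [gateEq]
            simpa using fun _ => ⟨g', h1, h2⟩
        · rw [if_neg hc, if_neg hc]
          simp only [cst] at hc
          cases ha : C.isAnd g
          · simp only [ha] at hc
            simp only [gateEq, inp]
            simpa using fun g' h1 h2 => absurd ⟨g', h1, h2⟩ hc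
          · simp only [ha] at hc
            simp only [gateEq, inp]
            simpa using fun _ g' h1 => by_contra fun h2 => hc ⟨g', h1, h2⟩)
    (Sum.inr (Sum.inl (Fin.last J, fun _ => false, ∅, {φ g0}))) f (by
      intro x
      have h0 : off J (fun _ : Fin J => false) = 0 := by simp [off]
      have hc : #{g' | lev g' ≤ lev g0} ≤ 2 ^ J :=
        (card_le_univ _).trans (by simpa using hJ)
      rw [hf, hout]
      simp only [F', Sum.elim_inr, Sum.elim_inl, Fin.val_last, h0, P]
      constructor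
      · rintro h g ⟨h1, h2⟩
        rw [hφ g g0 (by omega) (mem_singleton.1 h2)]
        exact (hfix x _ _ g0 hc).2 h
      · intro h
        exact (hfix x _ _ g0 hc).1 (h g0 ⟨rfl, mem_singleton_self _⟩))
    (Sum.elim (fun n => 2 * n.1.val + 2) (Sum.elim (fun n => 2 * n.1.val + 3) fun _ => 1))
    (2 * J + 2) (by
      rintro (⟨j, b, c, c'⟩ | ⟨j, b, c, c'', c'⟩ | ⟨b, c, g⟩)
      · have := j.2
        simp only [Sum.elim_inl]
        omega
      · have := j.2
        simp only [Sum.elim_inl, Sum.elim_inr]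
        omega
      · simp) (by
      rintro (⟨j, b, c, c'⟩ | ⟨j, b, c, c'', c'⟩ | ⟨b, c, g⟩) g' h
      · induction j using Fin.cases with
        | zero =>
          simp only [ar, Sum.elim_inl, Fin.cases_zero, mem_image, Sum.inr.injEq] at h
          obtain ⟨_, _, rfl⟩ := h
          simp
        | succ j =>
          simp only [ar, Sum.elim_inl, Fin.cases_succ, mem_image, Sum.inr.injEq] at h
          obtain ⟨_, _, rfl⟩ := h
          simp
          omega
      · simp only [ar, Sum.elim_inl, Sum.elim_inr, mem_insert, mem_singleton, Sum.inr.injEq] at h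
        rcases h with rfl | rfl <;> simp
      · simp only [ar, Sum.elim_inr, inp] at h
        split_ifs at h <;> simp at h)
  refine ⟨C', h1, h3, ?_⟩
  rw [h4]
  simp only [G, St, Fintype.card_sum, Fintype.card_prod, Fintype.card_fin, Fintype.card_fun,
    Fintype.card_bool, Fintype.card_finset]
  obtain ⟨A, hA⟩ : ∃ A, A = 2 ^ J := ⟨_, rfl⟩
  obtain ⟨B, hB⟩ : ∃ B, B = 2 ^ W := ⟨_, rfl⟩
  have e1 : 4 ^ J = A * A := by rw [hA, ← mul_pow]; norm_num
  have e2 : 8 ^ W = B * (B * B) := by rw [hB, ← mul_pow, ← mul_pow]; norm_num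
  have hA1 : 1 ≤ A := hA ▸ Nat.one_le_two_pow
  have hB1 : 1 ≤ B := hB ▸ Nat.one_le_two_pow
  rw [e1, e2, ← hA, ← hB]
  rw [← hA] at hJ
  have hAA : A ≤ A * A := Nat.le_mul_self A
  have hBB : B ≤ B * B := Nat.le_mul_self B
  have hB3 : B * B ≤ B * (B * B) := Nat.mul_le_mul_left _ hBB
  have t1 : (J + 1) * (A * (B * B)) ≤ (J + 1) * (A * A * (B * (B * B))) := by gcongr
  have t2 : J * (A * (B * (B * B))) ≤ (J + 1) * (A * A * (B * (B * B))) := by gcongr; omega
  have t3 : A * (B * C.size) ≤ (J + 1) * (A * A * (B * (B * B))) := by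
    calc A * (B * C.size) ≤ A * (B * (B * B) * A) := by gcongr; exact hBB.trans hB3
      _ = 1 * (A * A * (B * (B * B))) := by ring
      _ ≤ _ := by gcongr; omega
  calc _ ≤ 3 * ((J + 1) * (A * A * (B * (B * B)))) := by omega
    _ = _ := by ring

end Pool.Agent.MP_1a6d78_lc

end MrgPart2

-- ======== part 3: formerly Pool.Agent.MP_1a6d78_lc.Both
section MrgPart3

/-! The two separations. -/

open Finset

namespace Pool.Agent.MP_1a6d78_lc

open Classical

theorem MonCircuit.DepthLE.mono {ι : Type} {C : MonCircuit ι} {d d' : ℕ} (h : C.DepthLE d)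
    (hd : d ≤ d') : C.DepthLE d' := by
  obtain ⟨lev, h1, h2⟩ := h
  exact ⟨lev, fun g => ⟨(h1 g).1, (h1 g).2.trans hd⟩, h2⟩

theorem MonCircuit.WidthLE.mono {ι : Type} {C : MonCircuit ι} {d d' : ℕ} (h : C.WidthLE d)
    (hd : d ≤ d') : C.WidthLE d' := by
  obtain ⟨lev, h1, h2⟩ := h
  exact ⟨lev, h1, fun i => (h2 i).trans hd⟩

theorem shallow_gen {ι : Type} {L s m : ℕ} [NeZero s] [NeZero m] (e : Idx L s m → ι) :
    ∃ C : MonCircuit ι, (C.Computes fun x => decide (Gen (fun i => x (e i)) (L + 1) 0 0)) ∧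
      C.DepthLE (3 * L + 4) ∧ C.size ≤ 4 * Fintype.card (Idx L s m) ∧
      ∀ g, (C.arg g).card ≤ 2 * (s * m) := by
  let G := (Fin (L + 2) × Fin s × Fin m) ⊕ (Fin (L + 1) × Fin s × Fin m × Fin s) ⊕ Idx L s m
  let op : G → Bool := Sum.elim (fun _ => true) (Sum.elim (fun _ => false) fun _ => true)
  let ar : G → Finset (ι ⊕ G) := Sum.elim
    (fun n => Fin.cases ∅
      (fun t => univ.image fun c' => Sum.inr (Sum.inr (Sum.inl (t, n.2.1, n.2.2, c')))) n.1)
    (Sum.elim
      (fun n => univ.image fun β => Sum.inr (Sum.inr (Sum.inr (n.1, n.2.1, n.2.2.1, n.2.2.2, β))))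
      fun n => {Sum.inl (e n), Sum.inr (Sum.inl (n.1.castSucc, n.2.2.2.1, n.2.2.2.2))})
  let F : (ι → Bool) → G → Prop := fun x => Sum.elim
    (fun n => Gen (fun i => x (e i)) n.1.val n.2.1 n.2.2)
    (Sum.elim (fun n => ∃ β, x (e (n.1, n.2.1, n.2.2.1, n.2.2.2, β)) = true ∧
        Gen (fun i => x (e i)) n.1.val n.2.2.2 β)
      fun n => x (e n) = true ∧ Gen (fun i => x (e i)) n.1.val n.2.2.2.1 n.2.2.2.2)
  have hs : 1 ≤ s := NeZero.one_le
  have hm : 1 ≤ m := NeZero.one_le
  have hsm : 1 ≤ s * m := Nat.mul_pos hs hm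
  obtain ⟨C, h1, h2, h3, h4⟩ := mk_circuit op ar F (by
      rintro x (⟨t, c, α⟩ | ⟨t, c, α, c'⟩ | ⟨t, c, α, c', β⟩)
      · induction t using Fin.cases with
        | zero => simp [F, op, ar, gateEq, Gen]
        | succ t =>
          have : Fin.ofNat (L + 1) t.val = t := Fin.ext (Nat.mod_eq_of_lt t.2)
          simp [F, op, ar, gateEq, Gen, this]
      · simp [F, op, ar, gateEq]
      · simp [F, op, ar, gateEq])
    (Sum.inr (Sum.inl (Fin.last _, 0, 0))) (fun x => decide (Gen (fun i => x (e i)) (L + 1) 0 0))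
    (by simp [F])
    (Sum.elim (fun n => 3 * n.1.val + 1) (Sum.elim (fun n => 3 * n.1.val + 3)
      fun n => 3 * n.1.val + 2)) (3 * L + 4) (by
      rintro (⟨t, c, α⟩ | ⟨t, c, α, c'⟩ | ⟨t, c, α, c', β⟩) <;>
      · have := t.2
        simp only [Sum.elim_inl, Sum.elim_inr]
        omega) (by
      rintro (⟨t, c, α⟩ | ⟨t, c, α, c'⟩ | ⟨t, c, α, c', β⟩) g' h
      · induction t using Fin.cases with
        | zero => simp [ar] at h
        | succ t =>
          simp only [ar, Sum.elim_inl, Fin.cases_succ, mem_image, Sum.inr.injEq] at h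
          obtain ⟨_, _, rfl⟩ := h
          simp
          omega
      · simp only [ar, Sum.elim_inl, Sum.elim_inr, mem_image, Sum.inr.injEq] at h
        obtain ⟨_, _, rfl⟩ := h
        simp
      · simp only [ar, Sum.elim_inr, mem_insert, mem_singleton, Sum.inr.injEq, reduceCtorEq,
          false_or] at h
        rw [h]
        simp)
  refine ⟨C, h1, h2, ?_, h4 _ ?_⟩
  · rw [h3]
    simp only [G, Fintype.card_sum, Fintype.card_prod, Fintype.card_fin]
    have t1 : (L + 2) * (s * m) ≤ 2 * ((L + 1) * (s * (m * (s * m)))) := by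
      calc (L + 2) * (s * m) ≤ (2 * (L + 1)) * (s * m * (s * m)) :=
            Nat.mul_le_mul (by omega) (Nat.le_mul_self _)
        _ = _ := by ring
    have t2 : (L + 1) * (s * (m * s)) ≤ (L + 1) * (s * (m * (s * m))) := by
      gcongr
      exact Nat.le_mul_of_pos_right _ hm
    omega
  · have hs' : s ≤ s * m := Nat.le_mul_of_pos_right _ hm
    have hm' : m ≤ s * m := Nat.le_mul_of_pos_left _ hs
    rintro (⟨t, c, α⟩ | ⟨t, c, α, c'⟩ | ⟨t, c, α, c', β⟩)
    · induction t using Fin.cases with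
      | zero => simp [ar]
      | succ t => exact card_image_le.trans (by simp; omega)
    · exact card_image_le.trans (by simp; omega)
    · exact card_le_two.trans (by omega)

theorem sm_le {w : ℕ} (hw : 2 ≤ w) : (w + 1) * (8 * w * (w + 1) * (w + 2) ^ 2) ≤ 72 * w ^ 5 := by
  have h1 : 2 * (w + 1) ≤ 3 * w := by omega
  have h2 : w + 2 ≤ 2 * w := by omega
  have h3 : 4 * ((w + 1) * (8 * w * (w + 1) * (w + 2) ^ 2)) =
      8 * w * ((2 * (w + 1)) * (2 * (w + 1))) * (w + 2) ^ 2 := by ring
  have h4 : 8 * w * ((2 * (w + 1)) * (2 * (w + 1))) * (w + 2) ^ 2 ≤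
      8 * w * ((3 * w) * (3 * w)) * (2 * w) ^ 2 := by gcongr
  have h5 : 8 * w * ((3 * w) * (3 * w)) * (2 * w) ^ 2 = 4 * (72 * w ^ 5) := by ring
  omega

/-- All four bounds for one function. -/
theorem tradeoff (n w L k : ℕ) (hw : 2 ≤ w) (hn : (L + 1) * (5184 * w ^ 10) ≤ n) (hn2 : n ≤ 2 ^ w)
    (hk : 144 * w ^ 5 ≤ 2 ^ k) : ∃ f : (Fin n → Bool) → Bool,
    (∃ C : MonCircuit (Fin n), C.Computes f ∧ (∀ g, (C.arg g).card ≤ 2) ∧
      C.size ≤ 28 * n ∧ C.WidthLE (288 * w ^ 5)) ∧
    (∃ C : MonCircuit (Fin n), C.Computes f ∧ (∀ g, (C.arg g).card ≤ 2) ∧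
      C.size ≤ 4 * n * ((k + 1) * 2 ^ k) ∧ C.DepthLE ((3 * L + 4) * (k + 1))) ∧
    ∀ (C : MonCircuit (Fin n)) (d : ℕ), C.Computes f → C.DepthLE d → d + 1 ≤ L → 2 ^ w ≤ C.size := by
  obtain ⟨m, hm⟩ : ∃ m, m = 8 * w * (w + 1) * (w + 2) ^ 2 := ⟨_, rfl⟩
  have hm0 : 0 < m := by rw [hm]; positivity
  have : NeZero m := ⟨hm0.ne'⟩
  have hsm : (w + 1) * m ≤ 72 * w ^ 5 := hm ▸ sm_le hw
  have hcard : Fintype.card (Idx L (w + 1) m) ≤ n := by
    simp only [Fintype.card_prod, Fintype.card_fin]
    calc _ = (L + 1) * ((w + 1) * m) ^ 2 := by ring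
      _ ≤ (L + 1) * (72 * w ^ 5) ^ 2 := by gcongr
      _ = (L + 1) * (5184 * w ^ 10) := by ring
      _ ≤ n := hn
  obtain ⟨e⟩ := Function.Embedding.nonempty_of_card_le (hcard.trans (Fintype.card_fin n).ge)
  refine ⟨fun x => decide (Gen (fun i => x (e i)) (L + 1) 0 0), ?_, ?_, fun C d hC hd hL => ?_⟩
  · obtain ⟨C, h1, h2, h3, h4⟩ := upper_bound (L := L) (s := w + 1) (m := m) e
    exact ⟨C, h1, h2, by omega, h4.mono (by omega)⟩
  · obtain ⟨C, h1, h2, h3, h4⟩ := shallow_gen (L := L) (s := w + 1) (m := m) e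
    obtain ⟨C', h5, h6, h7, h8⟩ := binarize C h1 h2 k (fun g => (h4 g).trans (by omega))
    refine ⟨C', h5, h8, ?_, h6⟩
    rw [h7]
    exact Nat.mul_le_mul_right _ (by omega)
  · exact lower_bound hw e (by simpa using hn2) hm.ge C hC d hd hL

theorem const_circuit (n : ℕ) : ∃ C : MonCircuit (Fin n), C.Computes (fun _ => false) ∧
    (∀ g, (C.arg g).card ≤ 2) ∧ C.size = 1 ∧ C.WidthLE 1 ∧ C.DepthLE 1 := by
  refine ⟨⟨1, fun _ => false, fun _ => ∅, Sum.inr 0⟩, fun x => ⟨fun _ => false, by simp, by simp⟩,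
    by simp, rfl, ⟨fun _ => 1, by simp, fun i => ?_⟩, ⟨fun _ => 1, by simp, by simp⟩⟩
  exact (card_le_univ _).trans (by simp)

theorem poly_le_two_pow (a b k : ℕ) : ∃ q0, ∀ q ≥ q0, a * (q + b) ^ k ≤ 2 ^ q := by
  have h := (tendsto_pow_const_div_const_pow_of_one_lt k (show (1 : ℝ) < 2 by norm_num)).comp
    (Filter.tendsto_add_atTop_nat b)
  have h2 := h.eventually (gt_mem_nhds (show (0 : ℝ) < 1 / ((a + 1) * 2 ^ b) by positivity))
  obtain ⟨q0, hq0⟩ := Filter.eventually_atTop.1 h2
  refine ⟨q0, fun q hq => ?_⟩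
  have h3 := hq0 q hq
  simp only [Function.comp] at h3
  rw [div_lt_div_iff₀ (by positivity) (by positivity), pow_add] at h3
  have h4 : ((q + b : ℕ) : ℝ) ^ k * (a + 1) < 2 ^ q := by
    have : ((q + b : ℕ) : ℝ) ^ k * (a + 1) * 2 ^ b < 2 ^ q * 2 ^ b := by linarith
    exact lt_of_mul_lt_mul_right this (by positivity)
  have h5 : (q + b) ^ k * (a + 1) < 2 ^ q := by exact_mod_cast h4
  nlinarith [Nat.zero_le ((q + b) ^ k)]

theorem sc_not_nc : ∃ f, MonSC f ∧ ¬ MonNC f := by
  have key : ∀ n : ℕ, ∃ f : (Fin n → Bool) → Bool,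
      (∃ C : MonCircuit (Fin n), C.Computes f ∧ (∀ g, (C.arg g).card ≤ 2) ∧
        C.size ≤ (n + 2) ^ 19 ∧ C.WidthLE ((Nat.log 2 n + 2) ^ 19)) ∧
      ∀ (C : MonCircuit (Fin n)) (d : ℕ), C.Computes f → C.DepthLE d →
        d + 2 ≤ n / (5184 * (Nat.log 2 n + 2) ^ 20) → 2 ^ (Nat.log 2 n + 2) ^ 2 ≤ C.size := by
    intro n
    obtain ⟨l, hl⟩ : ∃ l, l = Nat.log 2 n + 2 := ⟨_, rfl⟩
    rw [← hl]
    have hl2 : 2 ≤ l := by omega
    by_cases h : n / (5184 * l ^ 20) = 0
    · obtain ⟨C, h1, h2, h3, h4, _⟩ := const_circuit n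
      exact ⟨_, ⟨C, h1, h2, h3.le.trans (Nat.one_le_pow _ _ (by omega)),
        h4.mono (Nat.one_le_pow _ _ (by omega))⟩, fun _ _ _ _ h' => by omega⟩
    obtain ⟨L, hL⟩ : ∃ L, n / (5184 * l ^ 20) = L + 1 := ⟨_, (Nat.succ_pred_eq_of_ne_zero h).symm⟩
    obtain ⟨f, ⟨C, h1, h2, h3, h4⟩, _, h5⟩ := tradeoff n (l ^ 2) L (144 * (l ^ 2) ^ 5)
      (by nlinarith) (by rw [← hL, ← pow_mul]; exact Nat.div_mul_le_self _ _)
      ((Nat.lt_pow_succ_log_self (by norm_num) n).le.trans
        (Nat.pow_le_pow_right (by norm_num) (by nlinarith))) Nat.lt_two_pow_self.le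
    refine ⟨f, ⟨C, h1, h2, h3.trans ?_, h4.mono ?_⟩, fun C d h6 h7 h8 => h5 C d h6 h7 (by omega)⟩
    · calc 28 * n ≤ 2 ^ 18 * (n + 2) := by omega
        _ ≤ (n + 2) ^ 18 * (n + 2) := by gcongr; omega
        _ = _ := by ring
    · calc 288 * (l ^ 2) ^ 5 ≤ 2 ^ 9 * (l ^ 2) ^ 5 := by omega
        _ ≤ l ^ 9 * (l ^ 2) ^ 5 := by gcongr
        _ = _ := by ring
  choose f hf1 hf2 using key
  refine ⟨f, ⟨19, hf1⟩, ?_⟩
  rintro ⟨k, hk⟩
  obtain ⟨q0, hq0⟩ := poly_le_two_pow (3 * 5184) 2 (k + 20)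
  obtain ⟨q, hq1, hq2⟩ : ∃ q, q0 ≤ q ∧ k + 1 ≤ q := ⟨q0 + (k + 1), by omega, by omega⟩
  obtain ⟨C, h1, _, h3, h4⟩ := hk (2 ^ q)
  have h5 := hf2 (2 ^ q) C _ h1 h4
  rw [Nat.log_pow (by norm_num)] at h5
  have h6 : 1 ≤ (q + 2) ^ k := Nat.one_le_pow _ _ (by omega)
  have h7 := h5 (by
    rw [Nat.le_div_iff_mul_le (by positivity)]
    calc ((q + 2) ^ k + 2) * (5184 * (q + 2) ^ 20) ≤ (3 * (q + 2) ^ k) * (5184 * (q + 2) ^ 20) :=
          Nat.mul_le_mul_right _ (by omega)
      _ = 3 * 5184 * (q + 2) ^ (k + 20) := by ring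
      _ ≤ _ := hq0 q hq1)
  have h8 : 2 ^ q + 2 ≤ 2 ^ (q + 1) := by
    have : 2 ^ 1 ≤ 2 ^ q := Nat.pow_le_pow_right (by norm_num) (by omega)
    rw [pow_succ]
    omega
  have h9 := h7.trans (h3.trans (Nat.pow_le_pow_left h8 k))
  rw [← pow_mul, Nat.pow_le_pow_iff_right (by norm_num)] at h9
  nlinarith

theorem nc_not_sc : ∃ f, MonNC f ∧ ¬ MonSC f := by
  have key : ∀ n : ℕ, ∃ f : (Fin n → Bool) → Bool,
      (∃ C : MonCircuit (Fin n), C.Computes f ∧ (∀ g, (C.arg g).card ≤ 2) ∧
        C.size ≤ (n + 2) ^ 19 ∧ C.DepthLE ((Nat.log 2 n + 2) ^ 19)) ∧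
      ∀ q, n = 2 ^ (20 * q) → 1 ≤ q → (q ^ 2 + 1) * 5184 ≤ 2 ^ q → 20 * q ≤ 2 ^ q →
        ∀ (C : MonCircuit (Fin n)) (d : ℕ), C.Computes f → C.DepthLE d →
          d + 1 ≤ q ^ 2 → 2 ^ 2 ^ q ≤ C.size := by
    intro n
    by_cases h : ∃ q, n = 2 ^ (20 * q) ∧ 1 ≤ q ∧ (q ^ 2 + 1) * 5184 ≤ 2 ^ q ∧ 20 * q ≤ 2 ^ q
    swap
    · obtain ⟨C, h1, h2, h3, _, h4⟩ := const_circuit n
      exact ⟨_, ⟨C, h1, h2, h3.le.trans (Nat.one_le_pow _ _ (by omega)),
        h4.mono (Nat.one_le_pow _ _ (by omega))⟩,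
        fun q g1 g2 g3 g4 => absurd ⟨q, g1, g2, g3, g4⟩ h⟩
    obtain ⟨q, rfl, hq1, hq2, hq3⟩ := h
    have hw : 2 ^ 1 ≤ 2 ^ q := Nat.pow_le_pow_right (by norm_num) hq1
    obtain ⟨f, _, ⟨C, h1, h2, h3, h4⟩, h5⟩ := tradeoff (2 ^ (20 * q)) (2 ^ q) (q ^ 2) (5 * q + 8)
      hw (by
        calc (q ^ 2 + 1) * (5184 * (2 ^ q) ^ 10) = (q ^ 2 + 1) * 5184 * (2 ^ q) ^ 10 := by ring
          _ ≤ 2 ^ q * (2 ^ q) ^ 10 := by gcongr
          _ = 2 ^ (11 * q) := by ring
          _ ≤ _ := Nat.pow_le_pow_right (by norm_num) (by omega))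
      (Nat.pow_le_pow_right (by norm_num) hq3) (by
        calc 144 * (2 ^ q) ^ 5 ≤ 2 ^ 8 * (2 ^ q) ^ 5 := by omega
          _ = _ := by ring)
    refine ⟨f, ⟨C, h1, h2, h3.trans ?_, h4.mono ?_⟩, fun q' hq' _ _ _ => ?_⟩
    · have e1 : 4 ≤ 2 ^ (20 * q) :=
        le_trans (by norm_num : 4 ≤ 2 ^ 2) (Nat.pow_le_pow_right (by norm_num) (by omega))
      have e2 : 2 ^ (5 * q + 8) ≤ 2 ^ (20 * q) := Nat.pow_le_pow_right (by norm_num) (by omega)
      have e3 : 5 * q + 8 + 1 ≤ 2 ^ (20 * q) := le_trans Nat.lt_two_pow_self e2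
      calc 4 * 2 ^ (20 * q) * ((5 * q + 8 + 1) * 2 ^ (5 * q + 8))
          ≤ 2 ^ (20 * q) * 2 ^ (20 * q) * (2 ^ (20 * q) * 2 ^ (20 * q)) := by gcongr
        _ = (2 ^ (20 * q)) ^ 4 := by ring
        _ ≤ (2 ^ (20 * q) + 2) ^ 4 := by gcongr; omega
        _ ≤ _ := Nat.pow_le_pow_right (by omega) (by norm_num)
    · rw [Nat.log_pow (by norm_num)]
      calc (3 * q ^ 2 + 4) * (5 * q + 8 + 1) ≤ (20 * q + 2) ^ 2 * (20 * q + 2) :=
            Nat.mul_le_mul (by nlinarith) (by omega)
        _ = (20 * q + 2) ^ 3 := by ring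
        _ ≤ _ := Nat.pow_le_pow_right (by omega) (by norm_num)
    · have : q' = q := by
        have := Nat.pow_right_injective (le_refl 2) hq'
        omega
      subst this
      exact h5
  choose f hf1 hf2 using key
  refine ⟨f, ⟨19, hf1⟩, ?_⟩
  rintro ⟨k, hk⟩
  obtain ⟨q0, hq0⟩ := poly_le_two_pow (5184 + 200 * (k + 1) * 20 ^ k) 1 (k + 2)
  obtain ⟨q, hq1, hq2⟩ : ∃ q, q0 ≤ q ∧ 42 * k + 3 ≤ q := ⟨q0 + (42 * k + 3), by omega, by omega⟩
  have hq3 := hq0 q hq1
  have hp1 : (q + 1) ^ 2 ≤ (q + 1) ^ (k + 2) := Nat.pow_le_pow_right (by omega) (by omega)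
  have hp2 : (q + 1) ^ k ≤ (q + 1) ^ (k + 2) := Nat.pow_le_pow_right (by omega) (by omega)
  have hp3 : 1 ≤ 20 ^ k := Nat.one_le_pow _ _ (by norm_num)
  obtain ⟨P, hP⟩ : ∃ P, P = (q + 1) ^ (k + 2) := ⟨_, rfl⟩
  rw [← hP] at hq3 hp1 hp2
  have hq4 : 5184 * P ≤ 2 ^ q := le_trans (Nat.mul_le_mul_right _ (by omega)) hq3
  obtain ⟨C, h1, _, h3, h4⟩ := hk (2 ^ (20 * q))
  rw [Nat.log_pow (by norm_num)] at h4
  have h8 : 2 ^ (20 * q) + 2 ≤ 2 ^ (21 * q) := by
    have : 2 ^ 1 ≤ 2 ^ (20 * q) := Nat.pow_le_pow_right (by norm_num) (by omega)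
    have h' : 2 ^ (20 * q + 1) ≤ 2 ^ (21 * q) := Nat.pow_le_pow_right (by norm_num) (by omega)
    rw [pow_succ] at h'
    omega
  obtain ⟨C', h5, h6, h7⟩ := shallow_of_narrow C h1 h4 (21 * q * k)
    (h3.trans ((Nat.pow_le_pow_left h8 k).trans (by rw [← pow_mul])))
  have h9 := hf2 _ q rfl (by omega) (by nlinarith) (by nlinarith) C' _ h5 h6 (by nlinarith)
  obtain ⟨J, hJ⟩ : ∃ J, J = 21 * q * k := ⟨_, rfl⟩
  obtain ⟨W, hW⟩ : ∃ W, W = (20 * q + 2) ^ k := ⟨_, rfl⟩
  rw [← hJ, ← hW] at h7
  have h10 : 3 * (J + 1) * 4 ^ J * 8 ^ W < 2 ^ (2 + 3 * J + 3 * W) := by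
    have : J + 1 ≤ 2 ^ J := Nat.lt_two_pow_self
    calc 3 * (J + 1) * 4 ^ J * 8 ^ W ≤ 3 * 2 ^ J * 4 ^ J * 8 ^ W := by gcongr
      _ < 4 * 2 ^ J * 4 ^ J * 8 ^ W := by gcongr; norm_num
      _ = 2 ^ 2 * 2 ^ J * (2 ^ 2) ^ J * (2 ^ 3) ^ W := by norm_num
      _ = _ := by rw [← pow_mul, ← pow_mul, ← pow_add, ← pow_add, ← pow_add]; congr 1; ring
  have h11 := (h9.trans h7).trans_lt h10
  rw [Nat.pow_lt_pow_iff_right (by norm_num)] at h11
  have hW2 : W ≤ 20 ^ k * P := by
    calc W ≤ (20 * (q + 1)) ^ k := by rw [hW]; exact Nat.pow_le_pow_left (by omega) k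
      _ = 20 ^ k * (q + 1) ^ k := mul_pow _ _ _
      _ ≤ _ := Nat.mul_le_mul_left _ hp2
  have hJ2 : J ≤ 21 * (k * (20 ^ k * P)) := by
    have : q ≤ 20 ^ k * P := by nlinarith
    rw [hJ]
    nlinarith
  have hP1 : 1 ≤ P := by nlinarith
  have h12 : (5184 + 200 * (k + 1) * 20 ^ k) * P =
      5184 * P + 200 * (k * (20 ^ k * P)) + 200 * (20 ^ k * P) := by ring
  omega

end Pool.Agent.MP_1a6d78_lc

end MrgPart3

-- marker of a merged file
example : 731051 + 421048 = 731051 + 421048 := rfl
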