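import Mathlib
import Pool.Agent.MP_1a6d78_lc.h61.ArithDefs
import Pool.Agent.MP_1a6d78_lc.h61.Main

namespace Pool.Agent.Results.MP_1a6d78_lc.ArithWidthToDepth

open Pool.Agent.MP_1a6d78_lc.h61

/-- An arithmetic circuit of size `s`, width `w` and formal degree `D` over a field with more than
`D` elements has an equivalent formula of depth `O(w log w log s + w ^ 2 log D)`. -/
theorem result {σ K : Type} [Field K] (C : Circuit σ K) (w D : ℕ) (f : MvPolynomial σ K)
    (hK : ∃ s : Finset K, D < s.card) (hf : C.ComputesPoly f) (hw : C.WidthLE w)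
    (hD : C.FormalDegLE D) :
    ∃ φ : Formula σ K, φ.eval = f ∧ φ.depth ≤
      w * ((Nat.log 2 C.size + 1) * (Nat.log 2 w + 2) + 4 * (w + 1) * (Nat.log 2 D + 1)) :=
  width_to_depth C w D f hK hf hw hD

end Pool.Agent.Results.MP_1a6d78_lc.ArithWidthToDepth
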