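import Mathlib
import Pool.Agent.MP_1a6d78_lc.h61.DecDefs
import Pool.Agent.MP_1a6d78_lc.h61.Upper

namespace Pool.Agent.Results.MP_1a6d78_lc.DecomposableNCnotSC

open Pool.Agent.MP_1a6d78_lc.h61

/-- Some Boolean function on `n` inputs has, over every nontrivial commutative semiring, a
decomposable circuit of size `n ^ 4` and depth `3 log ^ 2 n`, while its decomposable circuits of
width at most `n ^ (1 / c)` have size at least `n ^ (log n / c)`. -/
theorem result : ∃ c : ℕ, 0 < c ∧ ∀ n : ℕ, 2 ^ c ≤ n →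
    ∃ f : (Fin n → Bool) → Bool, ∀ (K : Type) [CommSemiring K] [Nontrivial K],
      (∃ C : Circuit (Fin n × Bool) K, C.Decomposable ∧ C.ComputesBool f ∧ C.size ≤ n ^ 4 ∧
        C.DepthLE (3 * Nat.log 2 n ^ 2)) ∧
      ∀ (C : Circuit (Fin n × Bool) K) (w : ℕ), C.Decomposable → C.ComputesBool f → C.WidthLE w →
        w ^ c ≤ n → n ^ Nat.log 2 n ≤ C.size ^ c :=
  ⟨12000, by norm_num, separation_fin⟩

end Pool.Agent.Results.MP_1a6d78_lc.DecomposableNCnotSC
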