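import Pool.Agent.MP_1a6d78_lc.ED.All

/-! Exact weighted edit distance in polynomial time and work space `O(n ^ ε)`. -/

namespace Pool.Agent.Results.MP_1a6d78_lc.EditDistanceSpace

open Pool.Agent.MP_1a6d78_lc.ED

theorem result :
    ∀ ε : ℝ, 0 < ε → ∃ (M : TM) (c : ℕ), ∀ x : List Bool, ∃ r : Bool,
      M.out (M.run x ((x.length + 2) ^ c)).q = some r ∧
      (∀ (t : ℕ) (i : Fin M.k), ((M.run x t).head i : ℝ) ≤ c * ((x.length : ℝ) + 1) ^ ε) ∧
      ∀ (m : ℕ) (del ins : Fin m → ℕ) (sub : Fin m → Fin m → ℕ) (u v : List (Fin m)) (t : ℕ),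
        x = code del ins sub u v t → (r = true ↔ ∃ d ≤ t, Align del ins sub u v d) :=
  main

end Pool.Agent.Results.MP_1a6d78_lc.EditDistanceSpace
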