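import Pool.Agent.MP_1a6d78_lc.ED.All3

/-! Exact alignment distance in space `k ^ 3 log ^ 4 n` and time `n ^ O(1 + log n / log k)`. -/

namespace Pool.Agent.MP_1a6d78_lc.OldEditDistanceTradeoff

open Pool.Agent.MP_1a6d78_lc.ED

theorem result :
    ∀ e : Bound, ∃ (M : TM) (c : ℕ), ∀ (x : List Bool) (k : ℕ), k = max 2 (e.eval x.length) →
      ∃ r : Bool, M.out (M.run x ((x.length + 2) ^ (c * (Nat.log k x.length + 1)))).q = some r ∧
        (∀ (t : ℕ) (i : Fin M.k), (M.run x t).head i ≤ c * k ^ 3 * (Nat.log 2 x.length + 1) ^ 4) ∧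
        ∀ (m : ℕ) (dn rt dg : Fin m → Fin m → ℕ) (a : Fin m) (u : List (Fin m)) (b : Fin m)
          (v : List (Fin m)) (t : ℕ), x = gridCode dn rt dg a u b v t →
            (r = true ↔ ∃ d ≤ t, Walk dn rt dg a u b v d) :=
  main3

end Pool.Agent.MP_1a6d78_lc.OldEditDistanceTradeoff
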