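import Mathlib
import Pool.Agent.MP_1a6d78_lc.Defs
import Pool.Agent.MP_1a6d78_lc.Upper

namespace Pool.Agent.Results.MP_1a6d78_lc.MonotoneSCnotNC

open Pool.Agent.MP_1a6d78_lc

/-- Narrow monotone circuits of linear size cannot be made shallow: some function on `n` inputs has
a monotone circuit of fan-in `2`, size `O(n)` and width `O(w ^ 5)`, while each of its monotone
circuits (of any fan-in) of depth at most `n / O(w ^ 10)` has at least `2 ^ w` gates. -/
theorem result : ∃ c : ℕ, 0 < c ∧ ∀ n w : ℕ, 0 < w → c * w ^ 10 ≤ n → n ≤ 2 ^ w →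
    ∃ f : (Fin n → Bool) → Bool,
      (∃ C : MonCircuit (Fin n), C.Computes f ∧ (∀ g, (C.arg g).card ≤ 2) ∧
        C.size ≤ c * n ∧ C.WidthLE (c * w ^ 5)) ∧
      ∀ C : MonCircuit (Fin n), C.Computes f → C.DepthLE (n / (c * w ^ 10)) → 2 ^ w ≤ C.size := by
  classical
  refine ⟨20000, by norm_num, fun n w hw0 hn hn2 => ?_⟩
  have hw : 2 ≤ w := by
    by_contra h
    have : w = 1 := by omega
    subst this
    omega
  obtain ⟨m, hm⟩ : ∃ m, m = 8 * w * (w + 1) * (w + 2) ^ 2 := ⟨_, rfl⟩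
  have hm0 : 0 < m := by rw [hm]; positivity
  have : NeZero m := ⟨hm0.ne'⟩
  have hsm : (w + 1) * m ≤ 72 * w ^ 5 := by
    have h1 : 2 * (w + 1) ≤ 3 * w := by omega
    have h2 : w + 2 ≤ 2 * w := by omega
    have h3 : 4 * ((w + 1) * m) = 8 * w * ((2 * (w + 1)) * (2 * (w + 1))) * (w + 2) ^ 2 := by
      rw [hm]; ring
    have h4 : 8 * w * ((2 * (w + 1)) * (2 * (w + 1))) * (w + 2) ^ 2 ≤
        8 * w * ((3 * w) * (3 * w)) * (2 * w) ^ 2 := by gcongr
    have h5 : 8 * w * ((3 * w) * (3 * w)) * (2 * w) ^ 2 = 4 * (72 * w ^ 5) := by ring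
    omega
  obtain ⟨b, hb⟩ : ∃ b, b = ((w + 1) * m) ^ 2 := ⟨_, rfl⟩
  have hb0 : 0 < b := by rw [hb]; positivity
  have hb1 : 3 * b ≤ 20000 * w ^ 10 := by
    have h1 : b ≤ (72 * w ^ 5) ^ 2 := by rw [hb]; exact Nat.pow_le_pow_left hsm 2
    have h2 : (72 * w ^ 5) ^ 2 = 5184 * w ^ 10 := by ring
    omega
  have hq : 1 ≤ n / (20000 * w ^ 10) := (Nat.one_le_div_iff (by positivity)).2 hn
  have hq2 : 3 * (n / (20000 * w ^ 10)) ≤ n / b := by
    rw [Nat.le_div_iff_mul_le hb0]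
    calc 3 * (n / (20000 * w ^ 10)) * b = n / (20000 * w ^ 10) * (3 * b) := by ring
      _ ≤ n / (20000 * w ^ 10) * (20000 * w ^ 10) := Nat.mul_le_mul_left _ hb1
      _ ≤ n := Nat.div_mul_le_self _ _
  obtain ⟨L, hL⟩ : ∃ L, n / b = L + 1 := ⟨n / b - 1, by omega⟩
  have hcard : Fintype.card (Idx L (w + 1) m) ≤ Fintype.card (Fin n) := by
    simp only [Fintype.card_prod, Fintype.card_fin]
    calc _ = n / b * b := by rw [hL, hb]; ring
      _ ≤ n := Nat.div_mul_le_self _ _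
  obtain ⟨e⟩ := Function.Embedding.nonempty_of_card_le hcard
  refine ⟨fun x => decide (Gen (fun i => x (e i)) (L + 1) 0 0), ?_, fun C hC hd => ?_⟩
  · obtain ⟨C, h1, h2, h3, lev, h4, h5⟩ := upper_bound (L := L) (s := w + 1) (m := m) e
    refine ⟨C, h1, h2, ?_, lev, h4, fun i => (h5 i).trans ?_⟩
    · rw [Fintype.card_fin] at hcard
      omega
    · omega
  · exact lower_bound hw e (by simpa using hn2) hm.ge C hC _ hd (by omega)

end Pool.Agent.Results.MP_1a6d78_lc.MonotoneSCnotNC
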