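import Pool.Agent.MP_1a6d78_lc.PD.All

/-! Reachability in acyclic digraphs of bounded genus in polynomial time and polylogarithmic
space. -/

namespace Pool.Agent.Results.MP_1a6d78_lc.PlanarDagReachSC

open Pool.Agent.MP_1a6d78_lc

theorem result :
    ∀ g : ℕ, ∃ (M : ED.TM) (c : ℕ), ∀ x : List Bool, ∃ r : Bool,
      M.out (M.run x ((x.length + 2) ^ c)).q = some r ∧
      (∀ (t : ℕ) (i : Fin M.k), (M.run x t).head i ≤ c * (Nat.log 2 x.length + 1) ^ 3) ∧
      ∀ (n : ℕ) (σ α : Equiv.Perm (Fin n)) (dir : Fin n → Bool) (s t : Fin n),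
        α * α = 1 → PD.Genus g σ α → PD.Acyclic σ α dir → x = PR.code σ α dir s t →
          (r = true ↔ PR.Reach σ α dir s t) :=
  PD.main

end Pool.Agent.Results.MP_1a6d78_lc.PlanarDagReachSC
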