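import Pool.Agent.MP_1a6d78_lc.DD.All

/-! Exact weighted distances in plane digraphs: polynomial time and space `n ^ ε`. -/

namespace Pool.Agent.MP_1a6d78_lc.OldPlanarDigraphDistance

open Pool.Agent.MP_1a6d78_lc

theorem result :
    ∀ ε : ℝ, 0 < ε → ∃ (M : ED.TM) (c : ℕ), ∀ x : List Bool, ∃ r : Bool,
      M.out (M.run x ((x.length + 2) ^ c)).q = some r ∧
      (∀ (τ : ℕ) (i : Fin M.k), ((M.run x τ).head i : ℝ) ≤ c * ((x.length : ℝ) + 1) ^ ε) ∧
      ∀ (n : ℕ) (σ α : Equiv.Perm (Fin n)) (dir : Fin n → Bool) (w : Fin n → ℕ) (s t : Fin n)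
        (θ : ℕ), α * α = 1 → PR.Planar σ α → x = DS.code σ α dir w s t θ →
          (r = true ↔ ∃ d ≤ θ, DS.Walk σ α dir w s t d) :=
  DS.DD.main

end Pool.Agent.MP_1a6d78_lc.OldPlanarDigraphDistance
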