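import Mathlib
import Pool.Agent.MP_1a6d78_lc.h66.ODefs
import Pool.Agent.MP_1a6d78_lc.h66.Main

namespace Pool.Agent.Results.MP_1a6d78_lc.RandomOracleIncomparable

open Pool.Agent.MP_1a6d78_lc.Orc

/-- Relative to a random oracle the classes SC and NC are incomparable, witnessed by two fixed
families of circuits whose oracle queries have polylogarithmic length. -/
theorem result : ∃ (C D : (n : ℕ) → Circuit n) (k : ℕ),
    (∀ n, (C n).size ≤ poly k n ∧ (C n).FanInLE (plog k n) ∧ (C n).DepthLE (plog k n)) ∧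
    (∀ n, (D n).size ≤ poly k n ∧ (D n).FanInLE (plog k n) ∧ (D n).WidthLE (plog k n)) ∧
    ∀ᵐ α ∂coins,
      (∃ f, (∀ n, (C n).Computes α (f n)) ∧ ¬ SC α f) ∧
      (∃ f, (∀ n, (D n).Computes α (f n)) ∧ ¬ NC α f) := by
  refine ⟨shallow, narrow, 7, shallow_bounds, narrow_bounds, ?_⟩
  filter_upwards [shallow_hard, narrow_hard] with α h1 h2
  exact ⟨⟨shallowF α, fun n => wit_computes _ _ _ _ n α, h1⟩,
    ⟨narrowF α, fun n => wit_computes _ _ _ _ n α, h2⟩⟩

end Pool.Agent.Results.MP_1a6d78_lc.RandomOracleIncomparable
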