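import Pool.Agent.MP_1a6d78_lc.CR.Main

/-! The class SC is the class of languages of polynomial time automata with two pushdown stores
and polylogarithmic depth. -/

namespace Pool.Agent.MP_1a6d78_lc.OldTwoStackSC

open Pool.Agent.MP_1a6d78_lc

theorem result (L : List Bool → Bool) :
    (∃ (A : CR.PD) (a : ℕ), ∀ x : List Bool,
      A.out (A.run x ((x.length + 2) ^ a)).q = some (L x) ∧
        ∀ t : ℕ, (A.run x t).d ≤ (Nat.log 2 x.length + 2) ^ a) ↔
    ∃ (M : ED.TM) (c : ℕ), ∀ x : List Bool,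
      M.out (M.run x ((x.length + 2) ^ c)).q = some (L x) ∧
        ∀ (t : ℕ) (i : Fin M.k), (M.run x t).head i ≤ (Nat.log 2 x.length + 2) ^ c :=
  CR.eqv_main L

/-- An instance: let `R` be a finite weight-reducing string rewriting system and `Red` its
reduction relation.  A machine of the class SC decides whether `t₁ w t₂` reduces to `y`, for all
words `w` (letters in unary) such that every descendant of `t₁ w t₂` reduces to `y` if `t₁ w t₂`
does.  This holds for all `w` if `R` is confluent and `y` is irreducible (Church-Rosser languages)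
and if `R` is a Dehn presentation of a group and `t₁`, `t₂`, `y` are empty. -/
theorem churchRosser (m : ℕ) (R : Finset (List (Fin (m + 1)) × List (Fin (m + 1))))
    (φ : Fin (m + 1) → ℕ) (hφ : ∀ a, 0 < φ a) (hR : ∀ p ∈ R, (p.2.map φ).sum < (p.1.map φ).sum)
    (t₁ t₂ y : List (Fin (m + 1))) (Red : List (Fin (m + 1)) → List (Fin (m + 1)) → Prop)
    (hRed : Red = Relation.ReflTransGen fun u v =>
      ∃ p ∈ R, ∃ a b, u = a ++ p.1 ++ b ∧ v = a ++ p.2 ++ b) :
    ∃ (M : ED.TM) (c : ℕ), ∀ x : List Bool, ∃ r : Bool,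
      M.out (M.run x ((x.length + 2) ^ c)).q = some r ∧
      (∀ (t : ℕ) (i : Fin M.k), (M.run x t).head i ≤ (Nat.log 2 x.length + 2) ^ c) ∧
      ∀ w : List (Fin (m + 1)), x = ED.unary (w.map Fin.val) →
        (∀ u, Red (t₁ ++ w ++ t₂) u → Red (t₁ ++ w ++ t₂) y → Red u y) →
        (r = true ↔ Red (t₁ ++ w ++ t₂) y) := by
  subst hRed
  exact CR.cr_main m R φ hφ hR t₁ t₂ y

end Pool.Agent.MP_1a6d78_lc.OldTwoStackSC
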